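import Mathlib

/-!
# MP_58c4c2_co: the order of `n^d - M(n,d)` and the exact value of `M(3,d)`

* `M n d + 2^d * ⌊(n-2)/2⌋ ≤ n^d` (`d ≥ 1`, `n ≥ 2`): a removal order restricted to a region which
  no removed vertex leaves is a removal order; near a corner the removed sets are down-sets (the
  first removed vertex of a `2 × ⋯ × 2` subcube determines the subcube), so at most one of the
  small `ℓ¹` spheres around each corner is missed.
* `n^d ≤ M n d + d * 4^(d-1) * n` (`d ≥ 1`, `n ≥ 6`): remove the even corners, all edges, then rings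
  in all two-dimensional faces up to one antenna for each corner of the face, and extend maximally
  inside the frame of the vertices with at most one far coordinate.
* `M 3 d = 3^d - 2^d`, `M 2 d = 2^d - i(Q_d)`.
-/

set_option autoImplicit false

namespace Pool.Agent.Results.MP_58c4c2_co.LinearGap

/-! ### Definitions -/

/-- Two vertices of `[n]^d` are adjacent if they differ by exactly `1` in exactly one
coordinate. -/
def Adj {n d : ℕ} (x y : Fin d → Fin n) : Prop :=
  ∃ i, ((x i : ℕ) + 1 = y i ∨ (y i : ℕ) + 1 = x i) ∧ ∀ j, j ≠ i → x j = y j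

/-- The number of neighbours of `v` in the position `P`. -/
noncomputable def deg {n d : ℕ} (P : Set (Fin d → Fin n)) (v : Fin d → Fin n) : ℕ :=
  {u | u ∈ P ∧ Adj v u}.ncard

/-- A move removes a vertex of degree exactly `d`. -/
def Move {n d : ℕ} (P Q : Set (Fin d → Fin n)) : Prop :=
  ∃ v ∈ P, deg P v = d ∧ Q = P \ {v}

/-- `P` is reachable: it arises from `[n]^d` by a finite sequence of moves. -/
def Reachable {n d : ℕ} (P : Set (Fin d → Fin n)) : Prop :=
  Relation.ReflTransGen Move Set.univ P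

/-- `P` is minimal: none of its vertices has degree exactly `d`. -/
def Minimal {n d : ℕ} (P : Set (Fin d → Fin n)) : Prop := ∀ v ∈ P, deg P v ≠ d

/-- The sizes of the minimal percolating sets (reachable minimal positions) in `[n]^d`. -/
def Sizes (n d : ℕ) : Set ℕ :=
  {m | ∃ P : Set (Fin d → Fin n), Reachable P ∧ Minimal P ∧ P.ncard = m}

/-- `M(n,d)`: the largest size of a minimal percolating set of `[n]^d`. -/
noncomputable def M (n d : ℕ) : ℕ := sSup (Sizes n d)

/-- The independent domination number of the hypercube `Q_d = [2]^d`: the least size of a set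
`I` of vertices, no two adjacent, such that every vertex outside `I` has a neighbour in `I`. -/
noncomputable def indDom (d : ℕ) : ℕ :=
  sInf {m | ∃ I : Set (Fin d → Fin 2), (∀ u ∈ I, ∀ v ∈ I, ¬ Adj u v) ∧
    (∀ v, v ∉ I → ∃ u ∈ I, Adj v u) ∧ I.ncard = m}

/-! ### Neighbours -/

open Finset Classical

variable {n d : ℕ}

/-- number of interior coordinates -/
noncomputable def kk (v : Fin d → Fin n) : ℕ :=
  (univ.filter fun i => 0 < (v i : ℕ) ∧ (v i : ℕ) + 1 < n).card

/-- one step down in direction `i` -/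
def dn (v : Fin d → Fin n) (i : Fin d) : Fin d → Fin n :=
  Function.update v i ⟨(v i : ℕ) - 1, by omega⟩

/-- one step up in direction `i` -/
def up (v : Fin d → Fin n) (i : Fin d) : Fin d → Fin n :=
  if h : (v i : ℕ) + 1 < n then Function.update v i ⟨(v i : ℕ) + 1, h⟩ else v

theorem dn_same (v : Fin d → Fin n) (i : Fin d) : (dn v i i : ℕ) = v i - 1 := by
  simp [dn]

theorem dn_other (v : Fin d → Fin n) {i j : Fin d} (h : j ≠ i) : dn v i j = v j := by
  simp [dn, h]

theorem up_same (v : Fin d → Fin n) (i : Fin d) (h : (v i : ℕ) + 1 < n) :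
    (up v i i : ℕ) = v i + 1 := by
  simp [up, h]

theorem up_other (v : Fin d → Fin n) {i j : Fin d} (h : j ≠ i) : up v i j = v j := by
  unfold up
  split_ifs
  · simp [h]
  · rfl

theorem adj_symm {u v : Fin d → Fin n} (h : Adj u v) : Adj v u := by
  obtain ⟨i, h1, h2⟩ := h
  exact ⟨i, h1.symm, fun j hj => (h2 j hj).symm⟩

theorem adj_irrefl {v : Fin d → Fin n} : ¬ Adj v v := by
  rintro ⟨i, h1, -⟩
  omega

theorem adj_iff (v u : Fin d → Fin n) : Adj v u ↔
    ∃ i, ((v i : ℕ) + 1 < n ∧ u = up v i) ∨ (0 < (v i : ℕ) ∧ u = dn v i) := by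
  constructor
  · rintro ⟨i, h1 | h1, h2⟩
    · refine ⟨i, Or.inl ⟨by rw [h1]; exact (u i).2, ?_⟩⟩
      have h3 : (v i : ℕ) + 1 < n := by rw [h1]; exact (u i).2
      funext j
      by_cases hj : j = i
      · subst hj
        apply Fin.ext
        rw [up_same v j h3, h1]
      · rw [up_other v hj, h2 j hj]
    · refine ⟨i, Or.inr ⟨by omega, ?_⟩⟩
      funext j
      by_cases hj : j = i
      · subst hj
        apply Fin.ext
        rw [dn_same]
        omega
      · rw [dn_other v hj, h2 j hj]
  · rintro ⟨i, ⟨h1, rfl⟩ | ⟨h1, rfl⟩⟩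
    · exact ⟨i, Or.inl (up_same v i h1).symm, fun j hj => (up_other v hj).symm⟩
    · refine ⟨i, Or.inr ?_, fun j hj => (dn_other v hj).symm⟩
      rw [dn_same]
      omega

/-- number of neighbours with the property `p` -/
noncomputable def nb (v : Fin d → Fin n) (p : (Fin d → Fin n) → Prop) : ℕ :=
  (univ.filter fun u => Adj v u ∧ p u).card

/-- contribution of the upper neighbour in direction `i` -/
noncomputable def cU (v : Fin d → Fin n) (p : (Fin d → Fin n) → Prop) (i : Fin d) : ℕ :=
  if (v i : ℕ) + 1 < n ∧ p (up v i) then 1 else 0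

/-- contribution of the lower neighbour in direction `i` -/
noncomputable def cD (v : Fin d → Fin n) (p : (Fin d → Fin n) → Prop) (i : Fin d) : ℕ :=
  if 0 < (v i : ℕ) ∧ p (dn v i) then 1 else 0

/-- is the coordinate `i` interior -/
noncomputable def ci (v : Fin d → Fin n) (i : Fin d) : ℕ :=
  if 0 < (v i : ℕ) ∧ (v i : ℕ) + 1 < n then 1 else 0

theorem kk_eq (v : Fin d → Fin n) : kk v = ∑ i, ci v i := by
  rw [kk, Finset.card_filter]
  rfl

theorem nb_eq (v : Fin d → Fin n) (p : (Fin d → Fin n) → Prop) :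
    nb v p = ∑ i, (cU v p i + cD v p i) := by
  unfold nb cU cD
  have h0 : (univ.filter fun u => Adj v u ∧ p u) = univ.biUnion (fun i =>
      (if (v i : ℕ) + 1 < n ∧ p (up v i) then {up v i} else ∅) ∪
        (if 0 < (v i : ℕ) ∧ p (dn v i) then {dn v i} else ∅)) := by
    ext u
    simp only [mem_filter, mem_univ, true_and, mem_biUnion, mem_union]
    rw [adj_iff]
    constructor
    · rintro ⟨⟨i, ⟨h1, rfl⟩ | ⟨h1, rfl⟩⟩, hp⟩
      · exact ⟨i, Or.inl (by rw [if_pos ⟨h1, hp⟩]; simp)⟩
      · exact ⟨i, Or.inr (by rw [if_pos ⟨h1, hp⟩]; simp)⟩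
    · rintro ⟨i, h | h⟩
      · split_ifs at h with h1
        · rw [mem_singleton] at h
          subst h
          exact ⟨⟨i, Or.inl ⟨h1.1, rfl⟩⟩, h1.2⟩
        · simp at h
      · split_ifs at h with h1
        · rw [mem_singleton] at h
          subst h
          exact ⟨⟨i, Or.inr ⟨h1.1, rfl⟩⟩, h1.2⟩
        · simp at h
  have hA : ∀ i u, u ∈ (if (v i : ℕ) + 1 < n ∧ p (up v i) then ({up v i} : Finset _) else ∅) →
      ((u i : ℕ) = v i + 1 ∧ ∀ j, j ≠ i → u j = v j) := by
    intro i u h
    split_ifs at h with h1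
    · rw [mem_singleton] at h
      subst h
      exact ⟨up_same v i h1.1, fun j hj => up_other v hj⟩
    · simp at h
  have hB : ∀ i u, u ∈ (if 0 < (v i : ℕ) ∧ p (dn v i) then ({dn v i} : Finset _) else ∅) →
      ((u i : ℕ) + 1 = v i ∧ ∀ j, j ≠ i → u j = v j) := by
    intro i u h
    split_ifs at h with h1
    · rw [mem_singleton] at h
      subst h
      refine ⟨?_, fun j hj => dn_other v hj⟩
      rw [dn_same]
      omega
    · simp at h
  rw [h0, card_biUnion]
  · refine Finset.sum_congr rfl fun i _ => ?_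
    rw [card_union_of_disjoint]
    · congr 1 <;> split_ifs <;> simp
    · rw [Finset.disjoint_left]
      intro u h1 h2
      have := (hA i u h1).1
      have := (hB i u h2).1
      omega
  · intro i _ j _ hij
    rw [Function.onFun, Finset.disjoint_left]
    intro u h1 h2
    rw [mem_union] at h1 h2
    have e1 : (u i : ℕ) ≠ v i := by
      rcases h1 with h1 | h1
      · have := (hA i u h1).1; omega
      · have := (hB i u h1).1; omega
    have e2 : u i = v i := by
      rcases h2 with h2 | h2
      · exact (hA j u h2).2 i hij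
      · exact (hB j u h2).2 i hij
    exact e1 (by rw [e2])

theorem card_nbr (hn : 2 ≤ n) (v : Fin d → Fin n) :
    (univ.filter fun u => Adj v u).card = d + kk v := by
  have h := nb_eq v (fun _ => True)
  have h' : nb v (fun _ => True) = (univ.filter fun u => Adj v u).card := by
    unfold nb
    congr 1
    ext u
    simp
  rw [← h', h, kk_eq]
  have e : ∑ _i : Fin d, 1 = d := by simp
  refine Eq.trans ?_ (congrArg (· + _) e)
  show _ = ∑ _i : Fin d, 1 + _
  rw [← Finset.sum_add_distrib]
  refine Finset.sum_congr rfl fun i _ => ?_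
  have := (v i).2
  unfold cU cD ci
  simp only [and_true]
  split_ifs <;> omega

theorem deg_iff (hn : 2 ≤ n) (R : Finset (Fin d → Fin n)) (v : Fin d → Fin n) :
    deg ((R : Set (Fin d → Fin n))ᶜ) v = d ↔ nb v (fun u => u ∈ R) = kk v := by
  have h1 : deg ((R : Set (Fin d → Fin n))ᶜ) v = (univ.filter fun u => Adj v u ∧ ¬ u ∈ R).card := by
    unfold deg
    rw [← Set.ncard_coe_finset]
    congr 1
    ext u
    simp [and_comm]
  have h2 := card_nbr hn v
  have h3 : (univ.filter fun u => Adj v u ∧ u ∈ R).card +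
      (univ.filter fun u => Adj v u ∧ ¬ u ∈ R).card = (univ.filter fun u => Adj v u).card := by
    rw [← Finset.filter_filter, ← Finset.filter_filter]
    exact Finset.card_filter_add_card_filter_not _
  have h4 : nb v (fun u => u ∈ R) = (univ.filter fun u => Adj v u ∧ u ∈ R).card := by
    unfold nb
    congr
  omega

theorem nb_congr {v : Fin d → Fin n} {p p' : (Fin d → Fin n) → Prop}
    (h : ∀ u, Adj v u → (p u ↔ p' u)) : nb v p = nb v p' := by
  unfold nb
  congr 1
  ext u
  simp only [mem_filter, mem_univ, true_and]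
  constructor
  · rintro ⟨h1, h2⟩
    exact ⟨h1, (h u h1).1 h2⟩
  · rintro ⟨h1, h2⟩
    exact ⟨h1, (h u h1).2 h2⟩

/-! ### Removal orders -/

/-- `R` can be removed in the order given by the ranks `r` -/
structure Valid (R : Finset (Fin d → Fin n)) (r : (Fin d → Fin n) → ℕ) : Prop where
  cnt : ∀ v ∈ R, nb v (fun u => u ∈ R ∧ r u < r v) = kk v
  ne : ∀ u ∈ R, ∀ v ∈ R, Adj u v → r u ≠ r v

theorem valid_of_reach (hn : 2 ≤ n) {P : Set (Fin d → Fin n)} (h : Reachable P) :
    ∃ (R : Finset (Fin d → Fin n)) (r : (Fin d → Fin n) → ℕ),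
      P = (R : Set (Fin d → Fin n))ᶜ ∧ Valid R r := by
  induction h with
  | refl => exact ⟨∅, fun _ => 0, by simp, ⟨by simp, by simp⟩⟩
  | tail _ hm ih =>
    obtain ⟨R, r, rfl, hR⟩ := ih
    obtain ⟨v, hv, hd, rfl⟩ := hm
    have hvR : v ∉ R := by simpa using hv
    have hd' := (deg_iff hn R v).1 hd
    have hr : ∀ w ∈ R, r w ≤ R.sup r := fun w hw => Finset.le_sup hw
    refine ⟨insert v R, fun u => if u = v then (R.sup r) + 1 else r u, ?_, ?_, ?_⟩
    · ext u
      simp [not_or, and_comm]
    · intro u hu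
      rw [mem_insert] at hu
      rcases hu with rfl | hu
      · rw [← hd']
        refine nb_congr fun w hw => ?_
        have hne : w ≠ u := by rintro rfl; exact adj_irrefl hw
        simp only [mem_insert, if_neg hne, if_true]
        constructor
        · rintro ⟨h2 | h2, h3⟩
          · exact absurd h2 hne
          · exact h2
        · intro h2
          have := hr w h2
          exact ⟨Or.inr h2, by omega⟩
      · have hne : u ≠ v := fun e => hvR (e ▸ hu)
        rw [← hR.cnt u hu]
        refine nb_congr fun w hw => ?_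
        simp only [mem_insert, if_neg hne]
        constructor
        · rintro ⟨h2 | h2, h3⟩
          · rw [if_pos h2] at h3
            have := hr u hu
            omega
          · have hne' : w ≠ v := fun e => hvR (e ▸ h2)
            rw [if_neg hne'] at h3
            exact ⟨h2, h3⟩
        · rintro ⟨h2, h3⟩
          have hne' : w ≠ v := fun e => hvR (e ▸ h2)
          refine ⟨Or.inr h2, ?_⟩
          rw [if_neg hne']
          exact h3
    · intro u hu w hw huw
      rw [mem_insert] at hu hw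
      rcases hu with rfl | hu
      · rcases hw with rfl | hw
        · exact absurd huw adj_irrefl
        · have hne : w ≠ u := fun e => hvR (e ▸ hw)
          simp only [if_true, if_neg hne]
          have := hr w hw
          omega
      · have hne : u ≠ v := fun e => hvR (e ▸ hu)
        rcases hw with rfl | hw
        · simp only [if_true, if_neg hne]
          have := hr u hu
          omega
        · have hne' : w ≠ v := fun e => hvR (e ▸ hw)
          simp only [if_neg hne, if_neg hne']
          exact hR.ne u hu w hw huw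

theorem reach_of_valid (hn : 2 ≤ n) (R : Finset (Fin d → Fin n)) (r : (Fin d → Fin n) → ℕ)
    (h : Valid R r) : Reachable ((R : Set (Fin d → Fin n))ᶜ) := by
  induction hc : R.card generalizing R with
  | zero =>
    rw [Finset.card_eq_zero] at hc
    subst hc
    rw [coe_empty, Set.compl_empty]
    exact Relation.ReflTransGen.refl
  | succ m ih =>
    have hne : R.Nonempty := by
      rw [← Finset.card_pos]; omega
    obtain ⟨v, hv, hmax⟩ := R.exists_max_image r hne
    have hval : Valid (R.erase v) r := by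
      constructor
      · intro u hu
        rw [mem_erase] at hu
        rw [← h.cnt u hu.2]
        refine nb_congr fun w _ => ?_
        rw [mem_erase]
        constructor
        · rintro ⟨⟨-, h2⟩, h3⟩
          exact ⟨h2, h3⟩
        · rintro ⟨h2, h3⟩
          refine ⟨⟨?_, h2⟩, h3⟩
          rintro rfl
          have := hmax u hu.2
          omega
      · intro u hu w hw
        exact h.ne u (mem_of_mem_erase hu) w (mem_of_mem_erase hw)
    have hcc : (R.erase v).card = m := by
      rw [card_erase_of_mem hv, hc]; rfl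
    refine Relation.ReflTransGen.tail (ih _ hval hcc) ⟨v, by simp, ?_, ?_⟩
    · rw [deg_iff hn, ← h.cnt v hv]
      refine nb_congr fun w hw => ?_
      rw [mem_erase]
      constructor
      · rintro ⟨h2, h3⟩
        refine ⟨h3, lt_of_le_of_ne (hmax w h3) ?_⟩
        exact fun e => h.ne v hv w h3 hw e.symm
      · rintro ⟨h2, h3⟩
        refine ⟨?_, h2⟩
        rintro rfl
        exact lt_irrefl _ h3
    · ext w
      simp only [Set.mem_compl_iff, mem_coe, coe_erase, Set.mem_sdiff, Set.mem_singleton_iff,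
        not_and, not_not]
      by_cases hw : w = v
      · subst hw; simp [hv]
      · simp [hw]

/-! ### The key lemma -/

/-- the subcube with base `a` -/
def InCube (a : Fin d → ℕ) (v : Fin d → Fin n) : Prop := ∀ i, a i ≤ v i ∧ (v i : ℕ) ≤ a i + 1

/-- the first removed vertex of a cube determines the cube -/
theorem key {R : Finset (Fin d → Fin n)} {r : (Fin d → Fin n) → ℕ} (h : Valid R r)
    {a : Fin d → ℕ} (ha : ∀ i, a i + 1 < n) {v : Fin d → Fin n} (hv : v ∈ R)
    (hav : InCube a v) (hmin : ∀ u ∈ R, InCube a u → r v ≤ r u) (i : Fin d)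
    (h0 : 0 < (v i : ℕ)) (h1 : (v i : ℕ) + 1 < n) :
    (a i = v i → (dn v i ∈ R ∧ r (dn v i) < r v) ∧ ¬ (up v i ∈ R ∧ r (up v i) < r v)) ∧
    (a i + 1 = v i → (up v i ∈ R ∧ r (up v i) < r v) ∧ ¬ (dn v i ∈ R ∧ r (dn v i) < r v)) := by
  have hup : ∀ j, (v j : ℕ) = a j → ¬ (up v j ∈ R ∧ r (up v j) < r v) := by
    rintro j hj ⟨h2, h3⟩
    have := hmin _ h2 ?_
    · omega
    · intro l
      by_cases hl : l = j
      · subst hl
        rw [up_same v l (by have := ha l; omega)]
        omega
      · rw [up_other v hl]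
        exact hav l
  have hdn : ∀ j, (v j : ℕ) = a j + 1 → ¬ (dn v j ∈ R ∧ r (dn v j) < r v) := by
    rintro j hj ⟨h2, h3⟩
    have := hmin _ h2 ?_
    · omega
    · intro l
      by_cases hl : l = j
      · subst hl
        rw [dn_same v l]
        omega
      · rw [dn_other v hl]
        exact hav l
  set p : (Fin d → Fin n) → Prop := fun u => u ∈ R ∧ r u < r v with hp
  have hcnt := h.cnt v hv
  rw [← hp, nb_eq, kk_eq] at hcnt
  have hle : ∀ j ∈ (univ : Finset (Fin d)), cU v p j + cD v p j ≤ ci v j := by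
    intro j _
    have h2 := hav j
    have h3 := ha j
    unfold cU cD ci
    rcases Nat.lt_or_ge (a j) (v j) with h4 | h4
    · have h5 : (v j : ℕ) = a j + 1 := by omega
      have h6 : ¬ p (dn v j) := hdn j h5
      split_ifs <;> first | omega | (exfalso; tauto)
    · have h5 : (v j : ℕ) = a j := by omega
      have h6 : ¬ p (up v j) := hup j h5
      split_ifs <;> first | omega | (exfalso; tauto)
  have heq := (Finset.sum_eq_sum_iff_of_le hle).1 hcnt i (mem_univ i)
  have hci : ci v i = 1 := if_pos ⟨h0, h1⟩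
  rw [hci] at heq
  constructor
  · intro hai
    have h6 : ¬ p (up v i) := hup i hai.symm
    have h7 : cU v p i = 0 := if_neg (fun h => h6 h.2)
    refine ⟨?_, h6⟩
    by_contra hcon
    have h8 : cD v p i = 0 := if_neg (fun h => hcon h.2)
    omega
  · intro hai
    have h6 : ¬ p (dn v i) := hdn i hai.symm
    have h7 : cD v p i = 0 := if_neg (fun h => h6 h.2)
    refine ⟨?_, h6⟩
    by_contra hcon
    have h8 : cU v p i = 0 := if_neg (fun h => hcon h.2)
    omega

/-- the hit cubes -/
noncomputable def hit (R : Finset (Fin d → Fin n)) : Finset (Fin d → Fin n) :=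
  univ.filter fun a => (∀ i, (a i : ℕ) + 1 < n) ∧ ∃ v ∈ R, InCube (fun i => (a i : ℕ)) v

theorem hit_card {R : Finset (Fin d → Fin n)} {r : (Fin d → Fin n) → ℕ} (h : Valid R r) :
    (hit R).card ≤ R.card := by
  have hex : ∀ a : Fin d → Fin n, a ∈ hit R → ∃ v ∈ R, InCube (fun i => (a i : ℕ)) v ∧
      ∀ u ∈ R, InCube (fun i => (a i : ℕ)) u → r v ≤ r u := by
    intro a ha
    simp only [hit, mem_filter, mem_univ, true_and] at ha
    obtain ⟨v0, hv0, hv0'⟩ := ha.2
    obtain ⟨v, hv, hmin⟩ := (R.filter fun v => InCube (fun i => (a i : ℕ)) v).exists_min_image r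
      ⟨v0, by simp [hv0, hv0']⟩
    rw [mem_filter] at hv
    exact ⟨v, hv.1, hv.2, fun u hu hu' => hmin u (by simp [hu, hu'])⟩
  choose! f hf1 hf2 hf3 using hex
  refine Finset.card_le_card_of_injOn f (fun a ha => hf1 a ha) ?_
  intro a ha b hb hab
  have ha' : ∀ i, (a i : ℕ) + 1 < n := by
    have := Finset.mem_coe.1 ha
    simp only [hit, mem_filter, mem_univ, true_and] at this
    exact this.1
  have hb' : ∀ i, (b i : ℕ) + 1 < n := by
    have := Finset.mem_coe.1 hb
    simp only [hit, mem_filter, mem_univ, true_and] at this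
    exact this.1
  funext i
  apply Fin.ext
  have h1 := hf2 a ha i
  have h2 := hf2 b hb i
  rw [← hab] at h2
  have h3 := ha' i
  have h4 := hb' i
  by_contra hne
  simp only at h1 h2
  have h0 : 0 < (f a i : ℕ) := by omega
  have h0' : (f a i : ℕ) + 1 < n := by omega
  have k1 := key h ha' (hf1 a ha) (hf2 a ha) (hf3 a ha) i h0 h0'
  have k2 := key h hb' (hf1 a ha) (by rw [hab]; exact hf2 b hb)
    (by rw [hab]; exact hf3 b hb) i h0 h0'
  rcases Nat.lt_or_ge (a i) (f a i) with h5 | h5
  · have k3 := k1.2 (by omega)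
    have k4 := k2.1 (by omega)
    exact k4.2 k3.1
  · have k3 := k1.1 (by omega)
    have k4 := k2.2 (by omega)
    exact k3.2 k4.1

/-- a removable set away from the far faces is a down-set -/
theorem down {R : Finset (Fin d → Fin n)} {r : (Fin d → Fin n) → ℕ} (h : Valid R r)
    (hR : ∀ v ∈ R, ∀ i, (v i : ℕ) + 1 < n) {v : Fin d → Fin n} (hv : v ∈ R) (i : Fin d) :
    dn v i ∈ R := by
  have hsub : R ⊆ hit R := by
    intro u hu
    simp only [hit, mem_filter, mem_univ, true_and]
    exact ⟨hR u hu, u, hu, fun j => ⟨le_refl _, by simp⟩⟩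
  have heq : R = hit R := Finset.eq_of_subset_of_card_le hsub (hit_card h)
  rw [heq]
  simp only [hit, mem_filter, mem_univ, true_and]
  refine ⟨fun j => ?_, v, hv, fun j => ?_⟩
  · have := hR v hv j
    by_cases hj : j = i
    · subst hj
      rw [dn_same]
      omega
    · rw [dn_other v hj]
      exact this
  · by_cases hj : j = i
    · subst hj
      simp only [dn_same]
      omega
    · simp only [dn_other v hj]
      omega

/-! ### Spheres around a corner -/

/-- `ℓ¹` distance to the corner `0` -/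
def nrm (v : Fin d → Fin n) : ℕ := ∑ i, (v i : ℕ)

theorem le_nrm (v : Fin d → Fin n) (i : Fin d) : (v i : ℕ) ≤ nrm v :=
  Finset.single_le_sum (f := fun i => (v i : ℕ)) (fun _ _ => Nat.zero_le _) (mem_univ i)

theorem nrm_up (v : Fin d → Fin n) (i : Fin d) (h : (v i : ℕ) + 1 < n) :
    nrm (up v i) = nrm v + 1 := by
  unfold nrm
  rw [← Finset.add_sum_erase _ _ (mem_univ i), ← Finset.add_sum_erase _ _ (mem_univ i),
    up_same v i h]
  have : ∑ j ∈ univ.erase i, (up v i j : ℕ) = ∑ j ∈ univ.erase i, (v j : ℕ) :=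
    Finset.sum_congr rfl fun j hj => by rw [up_other v (ne_of_mem_erase hj)]
  omega

theorem nrm_dn (v : Fin d → Fin n) (i : Fin d) (h : 0 < (v i : ℕ)) :
    nrm (dn v i) + 1 = nrm v := by
  unfold nrm
  rw [← Finset.add_sum_erase _ _ (mem_univ i), ← Finset.add_sum_erase _ _ (mem_univ i),
    dn_same v i]
  have : ∑ j ∈ univ.erase i, (dn v i j : ℕ) = ∑ j ∈ univ.erase i, (v j : ℕ) :=
    Finset.sum_congr rfl fun j hj => by rw [dn_other v (ne_of_mem_erase hj)]
  omega

theorem nrm_adj {u v : Fin d → Fin n} (h : Adj v u) : nrm u = nrm v + 1 ∨ nrm u + 1 = nrm v := by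
  rw [adj_iff] at h
  obtain ⟨i, ⟨h1, rfl⟩ | ⟨h1, rfl⟩⟩ := h
  · exact Or.inl (nrm_up v i h1)
  · exact Or.inr (nrm_dn v i h1)

theorem Valid.restrict {R : Finset (Fin d → Fin n)} {r : (Fin d → Fin n) → ℕ} (h : Valid R r)
    {S : Finset (Fin d → Fin n)} (hS : S ⊆ R) (hcl : ∀ v ∈ S, ∀ u ∈ R, Adj v u → u ∈ S) :
    Valid S r := by
  refine ⟨fun v hv => ?_, fun u hu v hv => h.ne u (hS hu) v (hS hv)⟩
  rw [← h.cnt v (hS hv)]
  exact nb_congr fun u hu => ⟨fun h1 => ⟨hS h1.1, h1.2⟩, fun h1 => ⟨hcl v hv u h1.1 hu, h1.2⟩⟩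

theorem nb_zero {v : Fin d → Fin n} {p : (Fin d → Fin n) → Prop} (h : ∀ u, Adj v u → ¬ p u) :
    nb v p = 0 := by
  unfold nb
  rw [Finset.card_eq_zero, Finset.filter_eq_empty_iff]
  rintro u - ⟨h1, h2⟩
  exact h u h1 h2

theorem Valid.corner {R : Finset (Fin d → Fin n)} {r : (Fin d → Fin n) → ℕ} (h : Valid R r)
    (hne : R.Nonempty) : ∃ v ∈ R, kk v = 0 := by
  obtain ⟨v, hv, hmin⟩ := R.exists_min_image r hne
  refine ⟨v, hv, ?_⟩
  rw [← h.cnt v hv]
  refine nb_zero fun u _ h1 => ?_
  have := hmin u h1.1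
  omega

theorem kk_zero {v : Fin d → Fin n} (h : kk v = 0) (i : Fin d) (hi : (v i : ℕ) + 1 < n) :
    (v i : ℕ) = 0 := by
  unfold kk at h
  rw [Finset.card_eq_zero, Finset.filter_eq_empty_iff] at h
  have := h (mem_univ i)
  omega

theorem nrm_eq_zero {v : Fin d → Fin n} : nrm v = 0 ↔ ∀ i, (v i : ℕ) = 0 := by
  unfold nrm
  rw [Finset.sum_eq_zero_iff]
  simp

theorem up_dn (v : Fin d → Fin n) (i : Fin d) (h : (v i : ℕ) + 1 < n) : dn (up v i) i = v := by
  funext j
  by_cases hj : j = i
  · subst hj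
    apply Fin.ext
    rw [dn_same, up_same v j h]
    rfl
  · rw [dn_other _ hj, up_other _ hj]

/-- at most one sphere of small radius around the corner `0` is missed -/
theorem sphere {R : Finset (Fin d → Fin n)} {r : (Fin d → Fin n) → ℕ} (hd : 1 ≤ d)
    (h : Valid R r) (hmin : ∀ v, v ∉ R → nb v (fun u => u ∈ R) ≠ kk v) {L : ℕ} (hL : L + 2 ≤ n)
    {a b : ℕ} (hab : a < b) (hbL : b ≤ L) (ha : ∀ v ∈ R, nrm v ≠ a) (hb : ∀ v ∈ R, nrm v ≠ b) :
    False := by
  -- take `a` minimal
  obtain ⟨a, hab, ha, hamin⟩ : ∃ a, a < b ∧ (∀ v ∈ R, nrm v ≠ a) ∧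
      ∀ m < a, ∃ v ∈ R, nrm v = m := by
    have hex : ∃ a, ∀ v ∈ R, nrm v ≠ a := ⟨a, ha⟩
    refine ⟨Nat.find hex, lt_of_le_of_lt (Nat.find_min' hex ha) hab, Nat.find_spec hex, ?_⟩
    intro m hm
    have := Nat.find_min hex hm
    push Not at this
    exact this
  -- the next sphere is missed too
  have ha1 : ∀ v ∈ R, nrm v ≠ a + 1 := by
    by_cases hc : a + 1 = b
    · rw [hc]; exact hb
    · intro v hv hva
      have hval : Valid (R.filter fun v => a < nrm v ∧ nrm v < b) r := by
        refine h.restrict (filter_subset _ _) ?_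
        intro v hv u hu huv
        rw [mem_filter] at hv ⊢
        have h1 := ha u hu
        have h2 := hb u hu
        refine ⟨hu, ?_⟩
        rcases nrm_adj huv with h3 | h3 <;> omega
      obtain ⟨w, hw, hkw⟩ := hval.corner ⟨v, by rw [mem_filter]; exact ⟨hv, by omega, by omega⟩⟩
      rw [mem_filter] at hw
      have : nrm w = 0 := by
        rw [nrm_eq_zero]
        intro i
        have := le_nrm w i
        exact kk_zero hkw i (by omega)
      omega
  have hpos : 0 < n := by omega
  set z : Fin d → Fin n := fun _ => ⟨0, hpos⟩ with hz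
  have hz0 : nrm z = 0 := nrm_eq_zero.2 fun i => rfl
  by_cases hzR : z ∈ R
  · -- the corner is removed
    have ha0 : 0 < a := by
      rcases Nat.eq_zero_or_pos a with h0 | h0
      · exact absurd (hz0.trans h0.symm) (ha z hzR)
      · exact h0
    set C := R.filter fun v => nrm v < a with hC
    have hCv : Valid C r := by
      refine h.restrict (filter_subset _ _) ?_
      intro v hv u hu huv
      rw [hC, mem_filter] at hv ⊢
      have h1 := ha u hu
      refine ⟨hu, ?_⟩
      rcases nrm_adj huv with h3 | h3 <;> omega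
    have hCd : ∀ v ∈ C, ∀ i, dn v i ∈ C := by
      intro v hv i
      refine down hCv ?_ hv i
      intro u hu j
      rw [hC, mem_filter] at hu
      have := le_nrm u j
      omega
    let i0 : Fin d := ⟨0, hd⟩
    obtain ⟨v, hv, hvmax⟩ := (C.filter fun v => ∀ j, j ≠ i0 → (v j : ℕ) = 0).exists_max_image
      (fun v => (v i0 : ℕ)) ⟨z, by
        rw [mem_filter, hC, mem_filter]
        exact ⟨⟨hzR, by omega⟩, fun _ _ => rfl⟩⟩
    rw [mem_filter] at hv
    have hvC := hv.1
    rw [hC, mem_filter] at hvC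
    have hvi : (v i0 : ℕ) + 1 < n := by
      have := le_nrm v i0
      omega
    set w := up v i0 with hw
    have hwn : nrm w = nrm v + 1 := nrm_up v i0 hvi
    have hwi : (w i0 : ℕ) = v i0 + 1 := up_same v i0 hvi
    have hwj : ∀ j, j ≠ i0 → (w j : ℕ) = 0 := fun j hj => by
      rw [hw, up_other v hj]; exact hv.2 j hj
    have hwC : w ∉ C := by
      intro hwC
      have := hvmax w (by rw [mem_filter]; exact ⟨hwC, hwj⟩)
      omega
    have hwR : w ∉ R := by
      intro hwR
      have := ha w hwR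
      exact hwC (by rw [hC, mem_filter]; exact ⟨hwR, by omega⟩)
    refine hmin w hwR ?_
    have hk : kk w = 1 := by
      unfold kk
      rw [Finset.card_eq_one]
      refine ⟨i0, ?_⟩
      ext j
      simp only [mem_filter, mem_univ, true_and, mem_singleton]
      constructor
      · intro h1
        by_contra hj
        have := hwj j hj
        omega
      · rintro rfl
        have := le_nrm w i0
        omega
    rw [hk]
    unfold nb
    rw [Finset.card_eq_one]
    refine ⟨v, ?_⟩
    ext u
    simp only [mem_filter, mem_univ, true_and, mem_singleton]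
    constructor
    · rintro ⟨hwu, huR⟩
      have h1 := ha u huR
      have h2 := ha1 u huR
      rw [adj_iff] at hwu
      obtain ⟨i, ⟨h3, h4⟩ | ⟨h3, h4⟩⟩ := hwu
      · exfalso
        have h5 : nrm u = nrm w + 1 := by rw [h4]; exact nrm_up w i h3
        have h6 : u ∈ C := by rw [hC, mem_filter]; exact ⟨huR, by omega⟩
        have h7 := hCd u h6 i
        rw [h4, up_dn w i h3] at h7
        exact hwC h7
      · have h5 : i = i0 := by
          by_contra hi
          have := hwj i hi
          omega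
        rw [h4, h5, hw, up_dn v i0 hvi]
    · rintro rfl
      refine ⟨adj_symm ?_, hvC.1⟩
      rw [adj_iff]
      exact ⟨i0, Or.inl ⟨hvi, hw⟩⟩
  · -- the corner is not removed
    have hz' : ∀ v ∈ R, nrm v ≠ 0 := by
      intro v hv h0
      rw [nrm_eq_zero] at h0
      have : v = z := by
        funext i
        apply Fin.ext
        rw [h0 i]
      exact hzR (this ▸ hv)
    have ha0 : a = 0 := by
      by_contra h0
      obtain ⟨v, hv, hv0⟩ := hamin 0 (by omega)
      exact hz' v hv hv0
    refine hmin z hzR ?_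
    have hk : kk z = 0 := by
      unfold kk
      rw [Finset.card_eq_zero, Finset.filter_eq_empty_iff]
      intro i _
      simp [hz]
    rw [hk]
    refine nb_zero fun u hu huR => ?_
    have h2 := ha1 u huR
    rcases nrm_adj hu with h3 | h3 <;> omega

theorem ball_card {R : Finset (Fin d → Fin n)} {r : (Fin d → Fin n) → ℕ} (hd : 1 ≤ d)
    (h : Valid R r) (hmin : ∀ v, v ∉ R → nb v (fun u => u ∈ R) ≠ kk v) {L : ℕ} (hL : L + 2 ≤ n) :
    L ≤ (R.filter fun v => nrm v ≤ L).card := by
  by_cases hex : ∃ a ≤ L, ∀ v ∈ R, nrm v ≠ a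
  · obtain ⟨a, haL, ha⟩ := hex
    have hsub : (range (L + 1)).erase a ⊆ (R.filter fun v => nrm v ≤ L).image nrm := by
      intro m hm
      rw [mem_erase, Finset.mem_range] at hm
      by_contra hcon
      have hm' : ∀ v ∈ R, nrm v ≠ m := by
        intro v hv hvm
        exact hcon (mem_image.2 ⟨v, by rw [mem_filter]; exact ⟨hv, by omega⟩, hvm⟩)
      rcases Nat.lt_or_gt_of_ne hm.1 with h1 | h1
      · exact sphere hd h hmin hL h1 haL hm' ha
      · exact sphere hd h hmin hL h1 (by omega) ha hm'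
    have h1 := card_le_card hsub
    rw [card_erase_of_mem (by rw [Finset.mem_range]; omega), card_range] at h1
    have h2 := card_image_le (s := R.filter fun v => nrm v ≤ L) (f := nrm)
    omega
  · push Not at hex
    have hsub : range (L + 1) ⊆ (R.filter fun v => nrm v ≤ L).image nrm := by
      intro m hm
      rw [Finset.mem_range] at hm
      obtain ⟨v, hv, hvm⟩ := hex m (by omega)
      exact mem_image.2 ⟨v, by rw [mem_filter]; exact ⟨hv, by omega⟩, hvm⟩
    have h1 := card_le_card hsub
    rw [card_range] at h1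
    have h2 := card_image_le (s := R.filter fun v => nrm v ≤ L) (f := nrm)
    omega

/-! ### Reflections -/

/-- reflection of the coordinates in `s` -/
def rf (s : Fin d → Bool) (v : Fin d → Fin n) : Fin d → Fin n :=
  fun i => if s i then Fin.rev (v i) else v i

theorem rf_rf (s : Fin d → Bool) (v : Fin d → Fin n) : rf s (rf s v) = v := by
  funext i
  unfold rf
  by_cases h : s i <;> simp [h]

theorem rf_adj1 (s : Fin d → Bool) {u v : Fin d → Fin n} (h : Adj u v) :
    Adj (rf s u) (rf s v) := by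
  obtain ⟨i, h1, h2⟩ := h
  refine ⟨i, ?_, fun j hj => by unfold rf; rw [h2 j hj]⟩
  have := (u i).2
  have := (v i).2
  unfold rf
  by_cases h : s i
  · simp only [h, if_true, Fin.val_rev]
    omega
  · simp only [h]
    exact h1

theorem rf_adj (s : Fin d → Bool) {u v : Fin d → Fin n} : Adj (rf s u) v ↔ Adj u (rf s v) := by
  constructor
  · intro h
    have := rf_adj1 s h
    rwa [rf_rf] at this
  · intro h
    have := rf_adj1 s h
    rwa [rf_rf] at this

theorem kk_rf (s : Fin d → Bool) (v : Fin d → Fin n) : kk (rf s v) = kk v := by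
  unfold kk
  congr 1
  ext i
  simp only [mem_filter, mem_univ, true_and]
  have := (v i).2
  unfold rf
  by_cases h : s i
  · simp only [h, if_true, Fin.val_rev]
    omega
  · simp [h]

theorem nb_rf (s : Fin d → Bool) (v : Fin d → Fin n) (p : (Fin d → Fin n) → Prop) :
    nb (rf s v) p = nb v (fun u => p (rf s u)) := by
  unfold nb
  refine Finset.card_bij' (fun u _ => rf s u) (fun u _ => rf s u) ?_ ?_ ?_ ?_
  · intro u hu
    simp only [mem_filter, mem_univ, true_and] at hu ⊢
    refine ⟨(rf_adj s).1 hu.1, ?_⟩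
    rw [rf_rf]; exact hu.2
  · intro u hu
    simp only [mem_filter, mem_univ, true_and] at hu ⊢
    refine ⟨(rf_adj s).2 ?_, hu.2⟩
    rw [rf_rf]; exact hu.1
  · intro u _; exact rf_rf s u
  · intro u _; exact rf_rf s u

theorem gap_lower {R : Finset (Fin d → Fin n)} {r : (Fin d → Fin n) → ℕ} (hd : 1 ≤ d)
    (h : Valid R r) (hmin : ∀ v, v ∉ R → nb v (fun u => u ∈ R) ≠ kk v) (hn : 2 ≤ n) :
    2 ^ d * ((n - 2) / 2) ≤ R.card := by
  set L := (n - 2) / 2 with hL
  have key : ∀ s : Fin d → Bool, L ≤ (R.filter fun v => nrm (rf s v) ≤ L).card := by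
    intro s
    have hval : Valid (R.image (rf s)) (fun v => r (rf s v)) := by
      constructor
      · intro v hv
        obtain ⟨w, hw, rfl⟩ := mem_image.1 hv
        rw [nb_rf, kk_rf, ← h.cnt w hw]
        refine nb_congr fun u _ => ?_
        simp only [rf_rf]
        constructor
        · rintro ⟨h1, h2⟩
          obtain ⟨u', hu', he⟩ := mem_image.1 h1
          have : u' = u := by rw [← rf_rf s u', he, rf_rf]
          exact ⟨this ▸ hu', h2⟩
        · rintro ⟨h1, h2⟩
          exact ⟨mem_image.2 ⟨u, h1, rfl⟩, h2⟩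
      · intro u hu v hv huv
        obtain ⟨u', hu', rfl⟩ := mem_image.1 hu
        obtain ⟨v', hv', rfl⟩ := mem_image.1 hv
        simp only [rf_rf]
        refine h.ne u' hu' v' hv' ?_
        have := rf_adj1 s huv
        rwa [rf_rf, rf_rf] at this
    have hmin' : ∀ v, v ∉ R.image (rf s) → nb v (fun u => u ∈ R.image (rf s)) ≠ kk v := by
      intro v hv
      have hv' : rf s v ∉ R := fun h1 => hv (mem_image.2 ⟨rf s v, h1, rf_rf s v⟩)
      have h1 := hmin _ hv'
      rw [nb_rf, kk_rf] at h1
      intro h2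
      apply h1
      rw [← h2]
      refine nb_congr fun u _ => ?_
      constructor
      · intro h3; exact mem_image.2 ⟨rf s u, h3, rf_rf s u⟩
      · intro h3
        obtain ⟨u', hu', he⟩ := mem_image.1 h3
        rw [← he, rf_rf]; exact hu'
    have h1 := ball_card hd hval hmin' (L := L) (by omega)
    refine h1.trans ?_
    refine Finset.card_le_card_of_injOn (rf s) ?_ ?_
    · intro v hv
      have hv := Finset.mem_coe.1 hv
      rw [mem_filter] at hv
      obtain ⟨w, hw, rfl⟩ := mem_image.1 hv.1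
      apply Finset.mem_coe.2
      rw [mem_filter, rf_rf]
      exact ⟨hw, hv.2⟩
    · intro u _ v _ huv
      rw [← rf_rf s u, huv, rf_rf]
  have hdis : ∀ s ∈ (univ : Finset (Fin d → Bool)), ∀ s' ∈ (univ : Finset (Fin d → Bool)),
      s ≠ s' → Disjoint (R.filter fun v => nrm (rf s v) ≤ L) (R.filter fun v => nrm (rf s' v) ≤ L) := by
    intro s _ s' _ hne
    rw [Finset.disjoint_left]
    intro v hv hv'
    rw [mem_filter] at hv hv'
    obtain ⟨i, hi⟩ : ∃ i, s i ≠ s' i := by
      by_contra hcon
      push Not at hcon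
      exact hne (funext hcon)
    have h1 := (le_nrm (rf s v) i).trans hv.2
    have h2 := (le_nrm (rf s' v) i).trans hv'.2
    have h3 := (v i).2
    unfold rf at h1 h2
    rcases Bool.eq_false_or_eq_true (s i) with h4 | h4
    · have h5 : s' i = false := by
        rcases Bool.eq_false_or_eq_true (s' i) with h6 | h6
        · exact absurd (h4.trans h6.symm) hi
        · exact h6
      simp only [h4, h5, if_true, Fin.val_rev] at h1 h2
      simp at h2
      omega
    · have h5 : s' i = true := by
        rcases Bool.eq_false_or_eq_true (s' i) with h6 | h6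
        · exact h6
        · exact absurd (h4.trans h6.symm) hi
      simp only [h4, h5, if_true, Fin.val_rev] at h1 h2
      simp at h1
      omega
  have h1 : ∑ s : Fin d → Bool, L ≤ ∑ s : Fin d → Bool, (R.filter fun v => nrm (rf s v) ≤ L).card :=
    Finset.sum_le_sum fun s _ => key s
  rw [← Finset.card_biUnion hdis] at h1
  have h2 : (univ.biUnion fun s : Fin d → Bool => R.filter fun v => nrm (rf s v) ≤ L).card ≤
      R.card := by
    refine card_le_card ?_
    intro v hv
    obtain ⟨s, -, hs⟩ := mem_biUnion.1 hv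
    exact (mem_filter.1 hs).1
  have h3 : ∑ s : Fin d → Bool, L = 2 ^ d * L := by
    rw [Finset.sum_const, smul_eq_mul, Finset.card_univ]
    simp
  omega

/-! ### The construction -/

/-- interior value -/
def isI (n x : ℕ) : Prop := 0 < x ∧ x + 1 < n

/-- sum of a function of the coordinates -/
def SF (f : ℕ → ℕ) (v : Fin d → Fin n) : ℕ := ∑ i, f (v i)

theorem SF_up (f : ℕ → ℕ) (v : Fin d → Fin n) (i : Fin d) (h : (v i : ℕ) + 1 < n) :
    SF f (up v i) + f (v i) = SF f v + f (v i + 1) := by
  unfold SF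
  rw [← Finset.add_sum_erase _ _ (mem_univ i), ← Finset.add_sum_erase (a := i) univ
    (fun i => f (v i)) (mem_univ i), up_same v i h]
  have : ∑ j ∈ univ.erase i, f (up v i j) = ∑ j ∈ univ.erase i, f (v j) :=
    Finset.sum_congr rfl fun j hj => by rw [up_other v (ne_of_mem_erase hj)]
  omega

theorem SF_dn (f : ℕ → ℕ) (v : Fin d → Fin n) (i : Fin d) :
    SF f (dn v i) + f (v i) = SF f v + f (v i - 1) := by
  unfold SF
  rw [← Finset.add_sum_erase _ _ (mem_univ i), ← Finset.add_sum_erase (a := i) univ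
    (fun i => f (v i)) (mem_univ i), dn_same v i]
  have : ∑ j ∈ univ.erase i, f (dn v i j) = ∑ j ∈ univ.erase i, f (v j) :=
    Finset.sum_congr rfl fun j hj => by rw [dn_other v (ne_of_mem_erase hj)]
  omega

/-- interior indicator -/
noncomputable def fI (n x : ℕ) : ℕ := if isI n x then 1 else 0

/-- last value indicator -/
noncomputable def fT (n x : ℕ) : ℕ := if x + 1 = n then 1 else 0

/-- value if interior -/
noncomputable def fV (n x : ℕ) : ℕ := if isI n x then x else 0

theorem kk_SF (v : Fin d → Fin n) : kk v = SF (fI n) v := by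
  rw [kk_eq]
  refine Finset.sum_congr rfl fun i _ => ?_
  unfold ci fI isI
  split_ifs <;> rfl

/-- indicator -/
noncomputable def ind (p : Prop) : ℕ := if p then 1 else 0

theorem ind_pos {p : Prop} (h : p) : ind p = 1 := if_pos h

theorem ind_neg {p : Prop} (h : ¬ p) : ind p = 0 := if_neg h

theorem ind_congr {p q : Prop} (h : p ↔ q) : ind p = ind q := by rw [propext h]

/-- antennas -/
def Ant (n x y : ℕ) : Prop :=
  (x = 2 ∧ y = 1) ∨ (x + 2 = n ∧ y = 2) ∨ (x + 3 = n ∧ y + 2 = n) ∨ (x = 1 ∧ y + 3 = n)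

/-- removed cells of the rings -/
def InR (n x y : ℕ) : Prop := (x = 1 ∨ x + 2 = n ∨ y = 1 ∨ y + 2 = n) ∧ ¬ Ant n x y

/-- ranks in the rings -/
def rk (n x y : ℕ) : ℕ :=
  if y = 1 ∧ 2 ≤ x then n - 2 - x else if x + 2 = n then n - 2 - y else if y + 2 = n then x - 1
  else y - 1

/-- lower neighbours in a ring -/
def Lw (n ρ a b : ℕ) : Prop := a = 0 ∨ a + 1 = n ∨ b = 0 ∨ b + 1 = n ∨ (InR n a b ∧ rk n a b < ρ)

theorem ring_count {n x y : ℕ} (hn : 6 ≤ n) (hx : isI n x) (hy : isI n y) (h : InR n x y) :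
    ind (Lw n (rk n x y) (x + 1) y) + ind (Lw n (rk n x y) (x - 1) y) +
    (ind (Lw n (rk n x y) x (y + 1)) + ind (Lw n (rk n x y) x (y - 1))) = 2 := by
  unfold isI at hx hy
  unfold InR Ant at h
  have hreg : (x = 1 ∧ y = 1) ∨ (x + 2 = n ∧ y = 1) ∨ (x + 2 = n ∧ y + 2 = n) ∨
      (x = 1 ∧ y + 2 = n) ∨ (y = 1 ∧ 3 ≤ x ∧ x + 3 ≤ n) ∨ (x + 2 = n ∧ 3 ≤ y ∧ y + 3 ≤ n) ∨
      (y + 2 = n ∧ 2 ≤ x ∧ x + 4 ≤ n) ∨ (x = 1 ∧ 2 ≤ y ∧ y + 4 ≤ n) := by omega
  rcases hreg with ⟨h1, h2⟩ | ⟨h1, h2⟩ | ⟨h1, h2⟩ | ⟨h1, h2⟩ | ⟨h1, h2, h3⟩ | ⟨h1, h2, h3⟩ |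
    ⟨h1, h2, h3⟩ | ⟨h1, h2, h3⟩
  · have e : rk n x y = 0 := by unfold rk; split_ifs <;> omega
    rw [e]
    have a1 : ¬ Lw n 0 (x + 1) y := by unfold Lw InR Ant; omega
    have a2 : Lw n 0 (x - 1) y := by unfold Lw; omega
    have a3 : ¬ Lw n 0 x (y + 1) := by unfold Lw; omega
    have a4 : Lw n 0 x (y - 1) := by unfold Lw; omega
    rw [ind_neg a1, ind_pos a2, ind_neg a3, ind_pos a4]
  · have e : rk n x y = 0 := by unfold rk; split_ifs <;> omega
    rw [e]
    have a1 : Lw n 0 (x + 1) y := by unfold Lw; omega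
    have a2 : ¬ Lw n 0 (x - 1) y := by unfold Lw; omega
    have a3 : ¬ Lw n 0 x (y + 1) := by unfold Lw; omega
    have a4 : Lw n 0 x (y - 1) := by unfold Lw; omega
    rw [ind_pos a1, ind_neg a2, ind_neg a3, ind_pos a4]
  · have e : rk n x y = 0 := by unfold rk; split_ifs <;> omega
    rw [e]
    have a1 : Lw n 0 (x + 1) y := by unfold Lw; omega
    have a2 : ¬ Lw n 0 (x - 1) y := by unfold Lw; omega
    have a3 : Lw n 0 x (y + 1) := by unfold Lw; omega
    have a4 : ¬ Lw n 0 x (y - 1) := by unfold Lw; omega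
    rw [ind_pos a1, ind_neg a2, ind_pos a3, ind_neg a4]
  · have e : rk n x y = 0 := by unfold rk; split_ifs <;> omega
    rw [e]
    have a1 : ¬ Lw n 0 (x + 1) y := by unfold Lw; omega
    have a2 : Lw n 0 (x - 1) y := by unfold Lw; omega
    have a3 : Lw n 0 x (y + 1) := by unfold Lw; omega
    have a4 : ¬ Lw n 0 x (y - 1) := by unfold Lw; omega
    rw [ind_neg a1, ind_pos a2, ind_pos a3, ind_neg a4]
  · have e : rk n x y = n - 2 - x := by unfold rk; split_ifs <;> omega
    rw [e]
    have a1 : Lw n (n - 2 - x) (x + 1) y := by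
      have e2 : rk n (x + 1) y = n - 2 - (x + 1) := by unfold rk; split_ifs <;> omega
      unfold Lw InR Ant
      rw [e2]
      omega
    have a2 : ¬ Lw n (n - 2 - x) (x - 1) y := by
      have e2 : rk n (x - 1) y = n - 2 - (x - 1) := by unfold rk; split_ifs <;> omega
      unfold Lw InR Ant
      rw [e2]
      omega
    have a3 : ¬ Lw n (n - 2 - x) x (y + 1) := by unfold Lw InR Ant; omega
    have a4 : Lw n (n - 2 - x) x (y - 1) := by unfold Lw; omega
    rw [ind_pos a1, ind_neg a2, ind_neg a3, ind_pos a4]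
  · have e : rk n x y = n - 2 - y := by unfold rk; split_ifs <;> omega
    rw [e]
    have a1 : Lw n (n - 2 - y) (x + 1) y := by unfold Lw; omega
    have a2 : ¬ Lw n (n - 2 - y) (x - 1) y := by unfold Lw InR Ant; omega
    have a3 : Lw n (n - 2 - y) x (y + 1) := by
      have e2 : rk n x (y + 1) = n - 2 - (y + 1) := by unfold rk; split_ifs <;> omega
      unfold Lw InR Ant
      rw [e2]
      omega
    have a4 : ¬ Lw n (n - 2 - y) x (y - 1) := by
      have e2 : rk n x (y - 1) = n - 2 - (y - 1) := by unfold rk; split_ifs <;> omega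
      unfold Lw InR Ant
      rw [e2]
      omega
    rw [ind_pos a1, ind_neg a2, ind_pos a3, ind_neg a4]
  · obtain ⟨x, rfl⟩ : ∃ x', x = x' + 1 := ⟨x - 1, by omega⟩
    have e : rk n (x + 1) y = x := by unfold rk; split_ifs <;> omega
    rw [e, Nat.add_sub_cancel]
    have a1 : ¬ Lw n x (x + 1 + 1) y := by
      have e2 : rk n (x + 1 + 1) y = x + 1 := by unfold rk; split_ifs <;> omega
      unfold Lw InR Ant
      rw [e2]
      omega
    have a2 : Lw n x x y := by
      have e2 : rk n x y = x - 1 := by unfold rk; split_ifs <;> omega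
      unfold Lw InR Ant
      rw [e2]
      omega
    have a3 : Lw n x (x + 1) (y + 1) := by unfold Lw; omega
    have a4 : ¬ Lw n x (x + 1) (y - 1) := by unfold Lw InR Ant; omega
    rw [ind_neg a1, ind_pos a2, ind_pos a3, ind_neg a4]
  · obtain ⟨y, rfl⟩ : ∃ y', y = y' + 1 := ⟨y - 1, by omega⟩
    have e : rk n x (y + 1) = y := by unfold rk; split_ifs <;> omega
    rw [e, Nat.add_sub_cancel]
    have a1 : ¬ Lw n y (x + 1) (y + 1) := by unfold Lw InR Ant; omega
    have a2 : Lw n y (x - 1) (y + 1) := by unfold Lw; omega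
    have a3 : ¬ Lw n y x (y + 1 + 1) := by
      have e2 : rk n x (y + 1 + 1) = y + 1 := by unfold rk; split_ifs <;> omega
      unfold Lw InR Ant
      rw [e2]
      omega
    have a4 : Lw n y x y := by
      have e2 : rk n x y = y - 1 := by unfold rk; split_ifs <;> omega
      unfold Lw InR Ant
      rw [e2]
      omega
    rw [ind_neg a1, ind_pos a2, ind_neg a3, ind_pos a4]

theorem ring_ne1 {n x y : ℕ} (hn : 6 ≤ n) (hx : isI n x) (hx' : isI n (x + 1)) (hy : isI n y)
    (h : InR n x y) (h' : InR n (x + 1) y) : rk n x y ≠ rk n (x + 1) y := by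
  unfold isI at hx hy hx'
  unfold InR Ant at h h'
  have hreg : (y = 1 ∧ 3 ≤ x) ∨ (y + 2 = n ∧ x + 4 ≤ n) := by omega
  rcases hreg with ⟨h1, h2⟩ | ⟨h1, h2⟩
  · have e1 : rk n x y = n - 2 - x := by unfold rk; split_ifs <;> omega
    have e2 : rk n (x + 1) y = n - 2 - (x + 1) := by unfold rk; split_ifs <;> omega
    omega
  · have e1 : rk n x y = x - 1 := by unfold rk; split_ifs <;> omega
    have e2 : rk n (x + 1) y = x := by unfold rk; split_ifs <;> omega
    omega

theorem ring_ne2 {n x y : ℕ} (hn : 6 ≤ n) (hx : isI n x) (hy : isI n y) (hy' : isI n (y + 1))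
    (h : InR n x y) (h' : InR n x (y + 1)) : rk n x y ≠ rk n x (y + 1) := by
  unfold isI at hx hy hy'
  unfold InR Ant at h h'
  have hreg : (x + 2 = n ∧ 3 ≤ y) ∨ (x = 1 ∧ y + 4 ≤ n) := by omega
  rcases hreg with ⟨h1, h2⟩ | ⟨h1, h2⟩
  · have e1 : rk n x y = n - 2 - y := by unfold rk; split_ifs <;> omega
    have e2 : rk n x (y + 1) = n - 2 - (y + 1) := by unfold rk; split_ifs <;> omega
    omega
  · have e1 : rk n x y = y - 1 := by unfold rk; split_ifs <;> omega
    have e2 : rk n x (y + 1) = y := by unfold rk; split_ifs <;> omega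
    omega

/-- removed or boundary -/
def Rb (n a b : ℕ) : Prop := a = 0 ∨ a + 1 = n ∨ b = 0 ∨ b + 1 = n ∨ InR n a b

theorem ant_count {n x y : ℕ} (hn : 6 ≤ n) (h : Ant n x y) :
    3 ≤ ind (Rb n (x + 1) y) + ind (Rb n (x - 1) y) +
      (ind (Rb n x (y + 1)) + ind (Rb n x (y - 1))) := by
  unfold Ant at h
  rcases h with ⟨h1, h2⟩ | ⟨h1, h2⟩ | ⟨h1, h2⟩ | ⟨h1, h2⟩
  · have a1 : Rb n (x + 1) y := by unfold Rb InR Ant; omega
    have a2 : Rb n (x - 1) y := by unfold Rb InR Ant; omega
    have a4 : Rb n x (y - 1) := by unfold Rb InR Ant; omega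
    rw [ind_pos a1, ind_pos a2, ind_pos a4]; omega
  · have a1 : Rb n (x + 1) y := by unfold Rb InR Ant; omega
    have a3 : Rb n x (y + 1) := by unfold Rb InR Ant; omega
    have a4 : Rb n x (y - 1) := by unfold Rb InR Ant; omega
    rw [ind_pos a1, ind_pos a3, ind_pos a4]; omega
  · have a1 : Rb n (x + 1) y := by unfold Rb InR Ant; omega
    have a2 : Rb n (x - 1) y := by unfold Rb InR Ant; omega
    have a3 : Rb n x (y + 1) := by unfold Rb InR Ant; omega
    rw [ind_pos a1, ind_pos a2, ind_pos a3]; omega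
  · have a2 : Rb n (x - 1) y := by unfold Rb InR Ant; omega
    have a3 : Rb n x (y + 1) := by unfold Rb InR Ant; omega
    have a4 : Rb n x (y - 1) := by unfold Rb InR Ant; omega
    rw [ind_pos a2, ind_pos a3, ind_pos a4]; omega


/-- exactly the coordinate `i` is interior -/
def One (v : Fin d → Fin n) (i : Fin d) : Prop := isI n (v i) ∧ ∀ l, l ≠ i → ¬ isI n (v l)

/-- exactly the coordinates `i`, `j` are interior -/
def Two (v : Fin d → Fin n) (i j : Fin d) : Prop :=
  isI n (v i) ∧ isI n (v j) ∧ ∀ l, l ≠ i → l ≠ j → ¬ isI n (v l)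

theorem kk_def (v : Fin d → Fin n) : kk v = (univ.filter fun i => isI n (v i)).card := by
  unfold kk isI
  congr

theorem kk_zero_iff {v : Fin d → Fin n} : kk v = 0 ↔ ∀ i, ¬ isI n (v i) := by
  rw [kk_def, Finset.card_eq_zero, Finset.filter_eq_empty_iff]
  simp

theorem kk_one_iff {v : Fin d → Fin n} : kk v = 1 ↔ ∃ i, One v i := by
  rw [kk_def, Finset.card_eq_one]
  constructor
  · rintro ⟨i, hi⟩
    have h : ∀ l, isI n (v l) ↔ l = i := by
      intro l
      have : l ∈ (univ.filter fun i => isI n (v i)) ↔ l ∈ ({i} : Finset (Fin d)) := by rw [hi]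
      simpa using this
    exact ⟨i, (h i).2 rfl, fun l hl h' => hl ((h l).1 h')⟩
  · rintro ⟨i, h1, h2⟩
    refine ⟨i, ?_⟩
    ext l
    simp only [mem_filter, mem_univ, true_and, mem_singleton]
    constructor
    · intro h
      by_contra hl
      exact h2 l hl h
    · rintro rfl
      exact h1

theorem kk_two_iff {v : Fin d → Fin n} : kk v = 2 ↔ ∃ i j, i < j ∧ Two v i j := by
  rw [kk_def, Finset.card_eq_two]
  constructor
  · rintro ⟨i, j, hij, h⟩
    have h' : ∀ l, isI n (v l) ↔ (l = i ∨ l = j) := by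
      intro l
      have : l ∈ (univ.filter fun i => isI n (v i)) ↔ l ∈ ({i, j} : Finset (Fin d)) := by rw [h]
      simpa using this
    rcases lt_or_gt_of_ne hij with h1 | h1
    · exact ⟨i, j, h1, (h' i).2 (Or.inl rfl), (h' j).2 (Or.inr rfl), fun l h2 h3 h4 =>
        ((h' l).1 h4).elim h2 h3⟩
    · exact ⟨j, i, h1, (h' j).2 (Or.inr rfl), (h' i).2 (Or.inl rfl), fun l h2 h3 h4 =>
        ((h' l).1 h4).elim h3 h2⟩
  · rintro ⟨i, j, hij, h1, h2, h3⟩
    refine ⟨i, j, hij.ne, ?_⟩
    ext l
    simp only [mem_filter, mem_univ, true_and, mem_insert, mem_singleton]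
    constructor
    · intro h
      by_contra hl
      push Not at hl
      exact h3 l hl.1 hl.2 h
    · rintro (rfl | rfl)
      · exact h1
      · exact h2

/-- sum over the pairs of interior coordinates -/
noncomputable def PS (v : Fin d → Fin n) : ℕ :=
  ∑ i, ∑ j, if i < j ∧ isI n (v i) ∧ isI n (v j) then rk n (v i) (v j) else 0

theorem PS_eq {v : Fin d → Fin n} {i j : Fin d} (hij : i < j) (h : Two v i j) :
    PS v = rk n (v i) (v j) := by
  unfold PS
  rw [Finset.sum_eq_single i, Finset.sum_eq_single j]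
  · rw [if_pos ⟨hij, h.1, h.2.1⟩]
  · intro l _ hl
    rw [if_neg]
    rintro ⟨h1, -, h3⟩
    exact h.2.2 l (ne_of_gt h1) hl h3
  · intro h'; exact absurd (mem_univ _) h'
  · intro l _ hl
    refine Finset.sum_eq_zero fun l' _ => ?_
    rw [if_neg]
    rintro ⟨h1, h2, h3⟩
    have e : l = j := by
      by_contra hlj
      exact h.2.2 l hl hlj h2
    subst e
    have e' : l' = i := by
      by_contra hli
      exact h.2.2 l' hli (ne_of_gt h1) h3
    subst e'
    exact absurd h1 (not_lt.2 hij.le)
  · intro h'; exact absurd (mem_univ _) h'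

/-- removed cells with two interior coordinates -/
def InR2 (v : Fin d → Fin n) : Prop :=
  ∃ i j, i < j ∧ isI n (v i) ∧ isI n (v j) ∧ InR n (v i) (v j)

/-- antennas -/
def Ant2 (v : Fin d → Fin n) : Prop :=
  kk v = 2 ∧ ∃ i j, i < j ∧ isI n (v i) ∧ isI n (v j) ∧ Ant n (v i) (v j)

theorem two_unique {v : Fin d → Fin n} {i j i' j' : Fin d} (hij : i < j) (h : Two v i j)
    (hij' : i' < j') (h1 : isI n (v i')) (h2 : isI n (v j')) : i' = i ∧ j' = j := by
  have e1 : i' = i ∨ i' = j := by
    by_contra hc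
    push Not at hc
    exact h.2.2 i' hc.1 hc.2 h1
  have e2 : j' = i ∨ j' = j := by
    by_contra hc
    push Not at hc
    exact h.2.2 j' hc.1 hc.2 h2
  rcases e1 with rfl | rfl
  · rcases e2 with rfl | rfl
    · exact absurd hij' (lt_irrefl _)
    · exact ⟨rfl, rfl⟩
  · rcases e2 with rfl | rfl
    · exact absurd hij' (not_lt.2 hij.le)
    · exact absurd hij' (lt_irrefl _)

theorem InR2_iff {v : Fin d → Fin n} {i j : Fin d} (hij : i < j) (h : Two v i j) :
    InR2 v ↔ InR n (v i) (v j) := by
  constructor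
  · rintro ⟨i', j', h1, h2, h3, h4⟩
    obtain ⟨rfl, rfl⟩ := two_unique hij h h1 h2 h3
    exact h4
  · intro h1
    exact ⟨i, j, hij, h.1, h.2.1, h1⟩

theorem Ant2_iff {v : Fin d → Fin n} {i j : Fin d} (hij : i < j) (h : Two v i j) :
    Ant2 v ↔ Ant n (v i) (v j) := by
  constructor
  · rintro ⟨-, i', j', h1, h2, h3, h4⟩
    obtain ⟨rfl, rfl⟩ := two_unique hij h h1 h2 h3
    exact h4
  · intro h1
    exact ⟨kk_two_iff.2 ⟨i, j, hij, h⟩, i, j, hij, h.1, h.2.1, h1⟩

/-- the set removed in the first two phases -/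
noncomputable def R1 (n d : ℕ) : Finset (Fin d → Fin n) :=
  univ.filter fun v => (kk v = 0 ∧ Even (SF (fT n) v)) ∨ kk v = 1 ∨ (kk v = 2 ∧ InR2 v)

/-- the ranks -/
noncomputable def r1 (v : Fin d → Fin n) : ℕ :=
  if kk v = 0 then 0 else if kk v = 1 then
    (if Even (SF (fT n) v) then SF (fV n) v else n - 1 - SF (fV n) v) else n + PS v

theorem mem_R1 {v : Fin d → Fin n} : v ∈ R1 n d ↔
    (kk v = 0 ∧ Even (SF (fT n) v)) ∨ kk v = 1 ∨ (kk v = 2 ∧ InR2 v) := by
  unfold R1
  simp

theorem SFV_eq {v : Fin d → Fin n} {i : Fin d} (h : One v i) : SF (fV n) v = v i := by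
  unfold SF
  rw [Finset.sum_eq_single i]
  · exact if_pos h.1
  · intro l _ hl
    exact if_neg (h.2 l hl)
  · intro h'; exact absurd (mem_univ _) h'

theorem r1_one {v : Fin d → Fin n} {i : Fin d} (h : One v i) :
    r1 v = if Even (SF (fT n) v) then (v i : ℕ) else n - 1 - v i := by
  have hk : kk v = 1 := kk_one_iff.2 ⟨i, h⟩
  unfold r1
  rw [hk, SFV_eq h]
  simp

theorem r1_one_lt {v : Fin d → Fin n} {i : Fin d} (h : One v i) : 0 < r1 v ∧ r1 v < n := by
  rw [r1_one h]
  have h1 := h.1
  unfold isI at h1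
  split_ifs <;> omega

theorem r1_two {v : Fin d → Fin n} {i j : Fin d} (hij : i < j) (h : Two v i j) :
    r1 v = n + rk n (v i) (v j) := by
  have hk : kk v = 2 := kk_two_iff.2 ⟨i, j, hij, h⟩
  unfold r1
  rw [hk, PS_eq hij h]
  simp

theorem cU_int {v : Fin d → Fin n} {l : Fin d} (h : isI n (v l)) (p : (Fin d → Fin n) → Prop) :
    cU v p l = ind (p (up v l)) := by
  unfold cU ind
  by_cases hq : p (up v l)
  · rw [if_pos ⟨h.2, hq⟩, if_pos hq]
  · rw [if_neg (fun h => hq h.2), if_neg hq]

theorem cD_int {v : Fin d → Fin n} {l : Fin d} (h : isI n (v l)) (p : (Fin d → Fin n) → Prop) :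
    cD v p l = ind (p (dn v l)) := by
  unfold cD ind
  by_cases hq : p (dn v l)
  · rw [if_pos ⟨h.1, hq⟩, if_pos hq]
  · rw [if_neg (fun h => hq h.2), if_neg hq]

theorem nb_one {v : Fin d → Fin n} {i : Fin d} (h : One v i) {p : (Fin d → Fin n) → Prop}
    (hp : ∀ l, l ≠ i → ¬ p (up v l) ∧ ¬ p (dn v l)) :
    nb v p = ind (p (up v i)) + ind (p (dn v i)) := by
  rw [nb_eq, Finset.sum_eq_single i, cU_int h.1, cD_int h.1]
  · intro l _ hl
    unfold cU cD
    rw [if_neg (fun h => (hp l hl).1 h.2), if_neg (fun h => (hp l hl).2 h.2)]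
    rfl
  · intro h'; exact absurd (mem_univ _) h'

theorem nb_two {v : Fin d → Fin n} {i j : Fin d} (hij : i ≠ j) (h : Two v i j)
    {p : (Fin d → Fin n) → Prop}
    (hp : ∀ l, l ≠ i → l ≠ j → cU v p l = 0 ∧ cD v p l = 0) :
    nb v p = (ind (p (up v i)) + ind (p (dn v i))) + (ind (p (up v j)) + ind (p (dn v j))) := by
  rw [nb_eq, ← cU_int h.1, ← cD_int h.1, ← cU_int h.2.1, ← cD_int h.2.1,
    ← Finset.sum_pair (f := fun l => cU v p l + cD v p l) hij]
  symm
  refine Finset.sum_subset (subset_univ _) ?_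
  intro l _ hl
  rw [mem_insert, mem_singleton, not_or] at hl
  have := hp l hl.1 hl.2
  omega

/-- moving a coordinate which is not interior -/
theorem kk_up_bd (hn : 3 ≤ n) {v : Fin d → Fin n} {l : Fin d} (h : ¬ isI n (v l))
    (h1 : (v l : ℕ) + 1 < n) : kk (up v l) = kk v + 1 := by
  have h2 := SF_up (fI n) v l h1
  rw [← kk_SF, ← kk_SF] at h2
  have h3 : fI n (v l) = 0 := if_neg h
  have h4 : fI n (v l + 1) = 1 := by
    refine if_pos ?_
    unfold isI at h ⊢
    omega
  omega

theorem kk_dn_bd (hn : 3 ≤ n) {v : Fin d → Fin n} {l : Fin d} (h : ¬ isI n (v l))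
    (h1 : 0 < (v l : ℕ)) : kk (dn v l) = kk v + 1 := by
  have h2 := SF_dn (fI n) v l
  rw [← kk_SF, ← kk_SF] at h2
  have h3 : fI n (v l) = 0 := if_neg h
  have h4 : fI n (v l - 1) = 1 := by
    refine if_pos ?_
    have := (v l).2
    unfold isI at h ⊢
    omega
  omega

/-- the cells with coordinates `a`, `b` in the directions `i`, `j` -/
theorem at_lw {u : Fin d → Fin n} {i j : Fin d} (hij : i < j)
    (ho : ∀ l, l ≠ i → l ≠ j → ¬ isI n (u l)) (hab : isI n (u i) ∨ isI n (u j)) (ρ : ℕ) :
    ((u ∈ R1 n d ∧ r1 u < n + ρ) ↔ Lw n ρ (u i) (u j)) ∧ (u ∈ R1 n d ↔ Rb n (u i) (u j)) := by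
  by_cases hi : isI n (u i)
  · by_cases hj : isI n (u j)
    · have h2 : Two u i j := ⟨hi, hj, ho⟩
      have hk : kk u = 2 := kk_two_iff.2 ⟨i, j, hij, h2⟩
      have hm : u ∈ R1 n d ↔ InR n (u i) (u j) := by
        rw [mem_R1, hk, ← InR2_iff hij h2]
        simp
      rw [hm, r1_two hij h2]
      unfold Lw Rb
      unfold isI at hi hj
      constructor
      · constructor
        · rintro ⟨h3, h4⟩
          exact Or.inr (Or.inr (Or.inr (Or.inr ⟨h3, by omega⟩)))
        · rintro (h3 | h3 | h3 | h3 | ⟨h3, h4⟩)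
          · omega
          · omega
          · omega
          · omega
          · exact ⟨h3, by omega⟩
      · constructor
        · intro h3
          exact Or.inr (Or.inr (Or.inr (Or.inr h3)))
        · rintro (h3 | h3 | h3 | h3 | h3)
          · omega
          · omega
          · omega
          · omega
          · exact h3
    · have h1 : One u i := ⟨hi, fun l hl => by
        by_cases hlj : l = j
        · rw [hlj]; exact hj
        · exact ho l hl hlj⟩
      have hm : u ∈ R1 n d := mem_R1.2 (Or.inr (Or.inl (kk_one_iff.2 ⟨i, h1⟩)))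
      have hr := r1_one_lt h1
      have hb : (u j : ℕ) = 0 ∨ (u j : ℕ) + 1 = n := by
        have := (u j).2
        unfold isI at hj
        omega
      constructor
      · refine iff_of_true ⟨hm, by omega⟩ ?_
        unfold Lw
        rcases hb with hb | hb
        · exact Or.inr (Or.inr (Or.inl hb))
        · exact Or.inr (Or.inr (Or.inr (Or.inl hb)))
      · refine iff_of_true hm ?_
        unfold Rb
        rcases hb with hb | hb
        · exact Or.inr (Or.inr (Or.inl hb))
        · exact Or.inr (Or.inr (Or.inr (Or.inl hb)))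
  · have hj := hab.resolve_left hi
    have h1 : One u j := ⟨hj, fun l hl => by
      by_cases hli : l = i
      · rw [hli]; exact hi
      · exact ho l hli hl⟩
    have hm : u ∈ R1 n d := mem_R1.2 (Or.inr (Or.inl (kk_one_iff.2 ⟨j, h1⟩)))
    have hr := r1_one_lt h1
    have hb : (u i : ℕ) = 0 ∨ (u i : ℕ) + 1 = n := by
      have := (u i).2
      unfold isI at hi
      omega
    constructor
    · refine iff_of_true ⟨hm, by omega⟩ ?_
      unfold Lw
      rcases hb with hb | hb
      · exact Or.inl hb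
      · exact Or.inr (Or.inl hb)
    · refine iff_of_true hm ?_
      unfold Rb
      rcases hb with hb | hb
      · exact Or.inl hb
      · exact Or.inr (Or.inl hb)


/-- coordinates of the neighbours in the directions of the two interior coordinates -/
theorem nbrs_two {v : Fin d → Fin n} {i j : Fin d} (hij : i < j) (h : Two v i j) (ρ : ℕ) :
    ((up v i ∈ R1 n d ∧ r1 (up v i) < n + ρ) ↔ Lw n ρ (v i + 1) (v j)) ∧
    ((dn v i ∈ R1 n d ∧ r1 (dn v i) < n + ρ) ↔ Lw n ρ (v i - 1) (v j)) ∧
    ((up v j ∈ R1 n d ∧ r1 (up v j) < n + ρ) ↔ Lw n ρ (v i) (v j + 1)) ∧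
    ((dn v j ∈ R1 n d ∧ r1 (dn v j) < n + ρ) ↔ Lw n ρ (v i) (v j - 1)) ∧
    (up v i ∈ R1 n d ↔ Rb n (v i + 1) (v j)) ∧ (dn v i ∈ R1 n d ↔ Rb n (v i - 1) (v j)) ∧
    (up v j ∈ R1 n d ↔ Rb n (v i) (v j + 1)) ∧ (dn v j ∈ R1 n d ↔ Rb n (v i) (v j - 1)) := by
  have hi := h.1.2
  have hj := h.2.1.2
  have hne : i ≠ j := hij.ne
  have e1 : (up v i i : ℕ) = v i + 1 := up_same v i hi
  have e2 : up v i j = v j := up_other v hne.symm
  have e3 : (dn v i i : ℕ) = v i - 1 := dn_same v i
  have e4 : dn v i j = v j := dn_other v hne.symm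
  have e5 : up v j i = v i := up_other v hne
  have e6 : (up v j j : ℕ) = v j + 1 := up_same v j hj
  have e7 : dn v j i = v i := dn_other v hne
  have e8 : (dn v j j : ℕ) = v j - 1 := dn_same v j
  have a1 := at_lw (u := up v i) hij (fun l h1 h2 => by
    rw [up_other v h1]; exact h.2.2 l h1 h2) (Or.inr (by rw [e2]; exact h.2.1)) ρ
  have a2 := at_lw (u := dn v i) hij (fun l h1 h2 => by
    rw [dn_other v h1]; exact h.2.2 l h1 h2) (Or.inr (by rw [e4]; exact h.2.1)) ρ
  have a3 := at_lw (u := up v j) hij (fun l h1 h2 => by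
    rw [up_other v h2]; exact h.2.2 l h1 h2) (Or.inl (by rw [e5]; exact h.1)) ρ
  have a4 := at_lw (u := dn v j) hij (fun l h1 h2 => by
    rw [dn_other v h2]; exact h.2.2 l h1 h2) (Or.inl (by rw [e7]; exact h.1)) ρ
  rw [e1, e2] at a1
  rw [e3, e4] at a2
  rw [e5, e6] at a3
  rw [e7, e8] at a4
  exact ⟨a1.1, a2.1, a3.1, a4.1, a1.2, a2.2, a3.2, a4.2⟩

theorem not_R1_three {u : Fin d → Fin n} (h : kk u = 3) : u ∉ R1 n d := by
  rw [mem_R1, h]
  simp

theorem out_dirs (hn : 3 ≤ n) {v : Fin d → Fin n} {i j : Fin d} (hij : i < j) (h : Two v i j)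
    {p : (Fin d → Fin n) → Prop} (hp : ∀ u, p u → u ∈ R1 n d) (l : Fin d) (h1 : l ≠ i)
    (h2 : l ≠ j) : cU v p l = 0 ∧ cD v p l = 0 := by
  have hk : kk v = 2 := kk_two_iff.2 ⟨i, j, hij, h⟩
  have hl := h.2.2 l h1 h2
  unfold cU cD
  constructor
  · rw [if_neg]
    rintro ⟨h3, h4⟩
    exact not_R1_three (by rw [kk_up_bd hn hl h3, hk]) (hp _ h4)
  · rw [if_neg]
    rintro ⟨h3, h4⟩
    exact not_R1_three (by rw [kk_dn_bd hn hl h3, hk]) (hp _ h4)

theorem R1_cnt (hn : 6 ≤ n) (v : Fin d → Fin n) (hv : v ∈ R1 n d) :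
    nb v (fun u => u ∈ R1 n d ∧ r1 u < r1 v) = kk v := by
  rw [mem_R1] at hv
  rcases hv with ⟨hk, he⟩ | hk | ⟨hk, hR⟩
  · -- corners
    have hr : r1 v = 0 := by unfold r1; rw [if_pos hk]
    rw [hk, hr]
    exact nb_zero fun u _ h => by omega
  · -- edges
    obtain ⟨i, hi⟩ := kk_one_iff.1 hk
    have hi0 : 0 < (v i : ℕ) := hi.1.1
    have hi1 : (v i : ℕ) + 1 < n := hi.1.2
    have hrv := r1_one_lt hi
    have hbd : ∀ (u : Fin d → Fin n), kk u = 2 → ¬ r1 u < r1 v := by
      intro u hu
      have : n ≤ r1 u := by unfold r1; rw [hu]; simp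
      omega
    rw [nb_one hi, hk]
    · -- the two neighbours on the edge
      have hT1 := SF_up (fT n) v i hi1
      have hT2 := SF_dn (fT n) v i
      have t0 : fT n (v i) = 0 := if_neg (by omega)
      have t1 : fT n (v i - 1) = 0 := if_neg (by omega)
      rw [t0, add_zero] at hT1
      rw [t0, add_zero, t1, add_zero] at hT2
      have hK1 := SF_up (fI n) v i hi1
      have hK2 := SF_dn (fI n) v i
      rw [← kk_SF, ← kk_SF, hk] at hK1 hK2
      have k0 : fI n (v i) = 1 := if_pos hi.1
      rw [k0] at hK1 hK2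
      -- lower neighbour in `R1` with smaller rank
      have hlow : (dn v i ∈ R1 n d ∧ r1 (dn v i) < r1 v) ↔ Even (SF (fT n) v) := by
        by_cases hz : (v i : ℕ) - 1 = 0
        · have k1 : fI n (v i - 1) = 0 := if_neg (by unfold isI; omega)
          have hkd : kk (dn v i) = 0 := by omega
          have hrd : r1 (dn v i) = 0 := by unfold r1; rw [if_pos hkd]
          rw [mem_R1, hkd, hT2, hrd]
          constructor
          · rintro ⟨h1 | h1 | h1, -⟩
            · exact h1.2
            · omega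
            · omega
          · intro h1
            exact ⟨Or.inl ⟨rfl, h1⟩, hrv.1⟩
        · have hod : One (dn v i) i := by
            refine ⟨?_, fun l hl => by rw [dn_other v hl]; exact hi.2 l hl⟩
            rw [dn_same]
            unfold isI
            omega
          have hmd : dn v i ∈ R1 n d := mem_R1.2 (Or.inr (Or.inl (kk_one_iff.2 ⟨i, hod⟩)))
          rw [r1_one hod, r1_one hi, hT2, dn_same]
          constructor
          · rintro ⟨-, h1⟩
            by_contra hne
            rw [if_neg hne, if_neg hne] at h1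
            omega
          · intro h1
            refine ⟨hmd, ?_⟩
            rw [if_pos h1, if_pos h1]
            omega
      have hhigh : (up v i ∈ R1 n d ∧ r1 (up v i) < r1 v) ↔ ¬ Even (SF (fT n) v) := by
        by_cases hz : (v i : ℕ) + 1 + 1 = n
        · have k1 : fI n (v i + 1) = 0 := if_neg (by unfold isI; omega)
          have t2 : fT n (v i + 1) = 1 := if_pos hz
          have hku : kk (up v i) = 0 := by omega
          have hru : r1 (up v i) = 0 := by unfold r1; rw [if_pos hku]
          rw [mem_R1, hku, hT1, hru, t2]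
          constructor
          · rintro ⟨h1 | h1 | h1, -⟩
            · exact Nat.even_add_one.1 h1.2
            · omega
            · omega
          · intro h1
            exact ⟨Or.inl ⟨rfl, Nat.even_add_one.2 h1⟩, hrv.1⟩
        · have hou : One (up v i) i := by
            refine ⟨?_, fun l hl => by rw [up_other v hl]; exact hi.2 l hl⟩
            rw [up_same v i hi1]
            unfold isI
            omega
          have t2 : fT n (v i + 1) = 0 := if_neg hz
          rw [t2, add_zero] at hT1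
          have hmu : up v i ∈ R1 n d := mem_R1.2 (Or.inr (Or.inl (kk_one_iff.2 ⟨i, hou⟩)))
          rw [r1_one hou, r1_one hi, hT1, up_same v i hi1]
          constructor
          · rintro ⟨-, h1⟩ hne
            rw [if_pos hne, if_pos hne] at h1
            omega
          · intro h1
            refine ⟨hmu, ?_⟩
            rw [if_neg h1, if_neg h1]
            omega
      by_cases hev : Even (SF (fT n) v)
      · rw [ind_neg (fun h => hhigh.1 h hev), ind_pos (hlow.2 hev)]
      · rw [ind_pos (hhigh.2 hev), ind_neg (fun h => hev (hlow.1 h))]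
    · intro l hl
      have hb := hi.2 l hl
      constructor
      · rintro ⟨h1, h2⟩
        by_cases hc : (v l : ℕ) + 1 < n
        · exact hbd _ (by rw [kk_up_bd (by omega) hb hc, hk]) h2
        · have : up v l = v := by unfold up; rw [dif_neg hc]
          rw [this] at h2
          exact lt_irrefl _ h2
      · rintro ⟨h1, h2⟩
        by_cases hc : 0 < (v l : ℕ)
        · exact hbd _ (by rw [kk_dn_bd (by omega) hb hc, hk]) h2
        · have : dn v l = v := by
            funext l'
            by_cases hl' : l' = l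
            · subst hl'
              apply Fin.ext
              rw [dn_same]
              omega
            · exact dn_other v hl'
          rw [this] at h2
          exact lt_irrefl _ h2
  · -- rings
    obtain ⟨i, j, hij, h2⟩ := kk_two_iff.1 hk
    have hR' := (InR2_iff hij h2).1 hR
    have hN := nbrs_two hij h2 (rk n (v i) (v j))
    rw [nb_two hij.ne h2 (out_dirs (by omega) hij h2 (fun u hu => hu.1)), hk, r1_two hij h2]
    rw [ind_congr hN.1, ind_congr hN.2.1, ind_congr hN.2.2.1, ind_congr hN.2.2.2.1]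
    exact ring_count hn h2.1 h2.2.1 hR'

theorem R1_ne_up (hn : 6 ≤ n) (v : Fin d → Fin n) (i : Fin d) (hi : (v i : ℕ) + 1 < n)
    (hv : v ∈ R1 n d) (hu : up v i ∈ R1 n d) : r1 v ≠ r1 (up v i) := by
  have hr0 : ∀ w : Fin d → Fin n, kk w = 0 → r1 w = 0 := fun w hw => by
    unfold r1; rw [if_pos hw]
  have hr2 : ∀ w : Fin d → Fin n, kk w = 2 → n ≤ r1 w := fun w hw => by
    unfold r1; rw [hw]; simp
  have hr1 : ∀ w : Fin d → Fin n, kk w = 1 → 0 < r1 w ∧ r1 w < n := fun w hw => by
    obtain ⟨l, hl⟩ := kk_one_iff.1 hw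
    exact r1_one_lt hl
  have hK := SF_up (fI n) v i hi
  rw [← kk_SF, ← kk_SF] at hK
  rw [mem_R1] at hv hu
  have hv' : kk v = 0 ∨ kk v = 1 ∨ kk v = 2 := by
    rcases hv with h | h | h
    · exact Or.inl h.1
    · exact Or.inr (Or.inl h)
    · exact Or.inr (Or.inr h.1)
  have hu' : kk (up v i) = 0 ∨ kk (up v i) = 1 ∨ kk (up v i) = 2 := by
    rcases hu with h | h | h
    · exact Or.inl h.1
    · exact Or.inr (Or.inl h)
    · exact Or.inr (Or.inr h.1)
  by_cases hne : kk v = kk (up v i)
  · rw [← hne] at hK hu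
    have hfe : fI n (v i) = fI n (v i + 1) := by omega
    by_cases hb : isI n (v i)
    · have hb' : isI n (v i + 1) := by
        by_contra hc
        have e1 : fI n (v i) = 1 := if_pos hb
        have e2 : fI n (v i + 1) = 0 := if_neg hc
        omega
      rcases hv with ⟨h1, -⟩ | h1 | ⟨h1, h2⟩
      · exact absurd hb (kk_zero_iff.1 h1 i)
      · obtain ⟨l, hl⟩ := kk_one_iff.1 h1
        have hli : i = l := by
          by_contra hc
          exact hl.2 i hc hb
        subst hli
        have hou : One (up v i) i := by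
          refine ⟨?_, fun l' hl' => by rw [up_other v hl']; exact hl.2 l' hl'⟩
          rw [up_same v i hi]
          exact hb'
        have hT := SF_up (fT n) v i hi
        have t0 : fT n (v i) = 0 := if_neg (by unfold isI at hb; omega)
        have t1 : fT n (v i + 1) = 0 := if_neg (by unfold isI at hb'; omega)
        rw [t0, t1, add_zero, add_zero] at hT
        rw [r1_one hl, r1_one hou, hT, up_same v i hi]
        unfold isI at hb hb'
        split_ifs <;> omega
      · obtain ⟨a, b, hab, hT⟩ := kk_two_iff.1 h1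
        have h2' := (InR2_iff hab hT).1 h2
        have hu2 : InR2 (up v i) := by
          rcases hu with h | h | h
          · omega
          · omega
          · exact h.2
        have hiab : i = a ∨ i = b := by
          by_contra hc
          push Not at hc
          exact hT.2.2 i hc.1 hc.2 hb
        rcases hiab with rfl | rfl
        · have hTu : Two (up v i) i b := by
            refine ⟨?_, ?_, fun l h3 h4 => by rw [up_other v h3]; exact hT.2.2 l h3 h4⟩
            · rw [up_same v i hi]; exact hb'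
            · rw [up_other v hab.ne']; exact hT.2.1
          have h3 := (InR2_iff hab hTu).1 hu2
          rw [r1_two hab hT, r1_two hab hTu]
          rw [up_same v i hi, up_other v hab.ne'] at h3 ⊢
          have := ring_ne1 hn hT.1 hb' hT.2.1 h2' h3
          omega
        · have hTu : Two (up v i) a i := by
            refine ⟨?_, ?_, fun l h3 h4 => by rw [up_other v h4]; exact hT.2.2 l h3 h4⟩
            · rw [up_other v hab.ne]; exact hT.1
            · rw [up_same v i hi]; exact hb'
          have h3 := (InR2_iff hab hTu).1 hu2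
          rw [r1_two hab hT, r1_two hab hTu]
          rw [up_same v i hi, up_other v hab.ne] at h3 ⊢
          have := ring_ne2 hn hT.1 hT.2.1 hb' h2' h3
          omega
    · exfalso
      have e1 : fI n (v i) = 0 := if_neg hb
      have e2 : fI n (v i + 1) = 1 := if_pos (by unfold isI at hb ⊢; omega)
      omega
  · rcases hv' with h1 | h1 | h1 <;> rcases hu' with h2 | h2 | h2
    · omega
    · have := hr0 _ h1; have := hr1 _ h2; omega
    · have := hr0 _ h1; have := hr2 _ h2; omega
    · have := hr1 _ h1; have := hr0 _ h2; omega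
    · omega
    · have := hr1 _ h1; have := hr2 _ h2; omega
    · have := hr2 _ h1; have := hr0 _ h2; omega
    · have := hr2 _ h1; have := hr1 _ h2; omega
    · omega

theorem dn_up_eq (v : Fin d → Fin n) (i : Fin d) (h : 0 < (v i : ℕ)) : up (dn v i) i = v := by
  have h2 : (dn v i i : ℕ) + 1 < n := by
    rw [dn_same]
    have := (v i).2
    omega
  funext j
  by_cases hj : j = i
  · subst hj
    apply Fin.ext
    rw [up_same _ j h2, dn_same]
    omega
  · rw [up_other _ hj, dn_other _ hj]

theorem R1_valid (hn : 6 ≤ n) : Valid (R1 n d) r1 := by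
  refine ⟨fun v hv => R1_cnt hn v hv, fun u hu v hv huv => ?_⟩
  rw [adj_iff] at huv
  obtain ⟨i, ⟨h1, rfl⟩ | ⟨h1, rfl⟩⟩ := huv
  · exact R1_ne_up hn u i h1 hu hv
  · have h2 : up (dn u i) i = u := dn_up_eq u i h1
    have h3 : (dn u i i : ℕ) + 1 < n := by
      rw [dn_same]
      have := (u i).2
      omega
    have := R1_ne_up hn (dn u i) i h3 hv (by rw [h2]; exact hu)
    rw [h2] at this
    exact this.symm


/-! ### The frame and the maximal extension -/

/-- far values -/
def isJ (n x : ℕ) : Prop := 2 ≤ x ∧ x + 3 ≤ n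

/-- indicator of the far values -/
noncomputable def fJ (n x : ℕ) : ℕ := if isJ n x then 1 else 0

/-- the frame: at most one far coordinate -/
noncomputable def Fr (n d : ℕ) : Finset (Fin d → Fin n) :=
  univ.filter fun v => SF (fJ n) v ≤ 1

/-- the frame without the antennas -/
noncomputable def Gd (n d : ℕ) : Finset (Fin d → Fin n) := (Fr n d).filter fun v => ¬ Ant2 v

theorem jj_le_kk (v : Fin d → Fin n) : SF (fJ n) v ≤ kk v := by
  rw [kk_SF]
  refine Finset.sum_le_sum fun i _ => ?_
  unfold fJ fI isJ isI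
  split_ifs <;> omega

theorem sum_two (f : ℕ → ℕ) {v : Fin d → Fin n} {i j : Fin d} (hij : i ≠ j)
    (h : ∀ l, l ≠ i → l ≠ j → f (v l) = 0) : SF f v = f (v i) + f (v j) := by
  unfold SF
  rw [← Finset.sum_pair (f := fun l => f (v l)) hij]
  symm
  refine Finset.sum_subset (subset_univ _) ?_
  intro l _ hl
  rw [mem_insert, mem_singleton, not_or] at hl
  exact h l hl.1 hl.2

theorem R1_sub (v : Fin d → Fin n) (hv : v ∈ R1 n d) : v ∈ Gd n d := by
  unfold Gd Fr
  rw [mem_filter, mem_filter]
  have hjk := jj_le_kk v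
  rw [mem_R1] at hv
  rcases hv with ⟨hk, -⟩ | hk | ⟨hk, hR⟩
  · refine ⟨⟨mem_univ _, by omega⟩, ?_⟩
    rintro ⟨h, -⟩
    omega
  · refine ⟨⟨mem_univ _, by omega⟩, ?_⟩
    rintro ⟨h, -⟩
    omega
  · obtain ⟨i, j, hij, h2⟩ := kk_two_iff.1 hk
    have hR' := (InR2_iff hij h2).1 hR
    refine ⟨⟨mem_univ _, ?_⟩, ?_⟩
    · rw [sum_two (fJ n) hij.ne (fun l h3 h4 => if_neg (fun h5 => h2.2.2 l h3 h4 (by
        unfold isJ at h5; unfold isI; omega)))]
      unfold InR at hR'
      unfold fJ isJ
      split_ifs <;> omega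
    · rw [Ant2_iff hij h2]
      exact hR'.2

theorem maxext (hn : 6 ≤ n) : ∃ R : Finset (Fin d → Fin n), R1 n d ⊆ R ∧ R ⊆ Gd n d ∧
    Reachable ((R : Set (Fin d → Fin n))ᶜ) ∧
    ∀ v ∈ Gd n d, v ∉ R → nb v (fun u => u ∈ R) ≠ kk v := by
  obtain ⟨R, hR, hmax⟩ := (univ.filter fun R : Finset (Fin d → Fin n) => R1 n d ⊆ R ∧ R ⊆ Gd n d ∧
    Reachable ((R : Set (Fin d → Fin n))ᶜ)).exists_max_image Finset.card ⟨R1 n d, by
      rw [mem_filter]
      exact ⟨mem_univ _, Finset.Subset.refl _, fun v hv => R1_sub v hv,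
        reach_of_valid (by omega) _ r1 (R1_valid hn)⟩⟩
  rw [mem_filter] at hR
  obtain ⟨-, h1, h2, h3⟩ := hR
  refine ⟨R, h1, h2, h3, ?_⟩
  intro v hv hvR hnb
  have := hmax (insert v R) (by
    rw [mem_filter]
    refine ⟨mem_univ _, h1.trans (subset_insert _ _), ?_, ?_⟩
    · intro u hu
      rw [mem_insert] at hu
      rcases hu with rfl | hu
      · exact hv
      · exact h2 hu
    · refine Relation.ReflTransGen.tail h3 ⟨v, by simpa using hvR,
        (deg_iff (by omega) R v).2 hnb, ?_⟩
      ext u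
      simp [not_or, and_comm])
  rw [card_insert_of_notMem hvR] at this
  omega

theorem nb_mono {v : Fin d → Fin n} {p q : (Fin d → Fin n) → Prop} (h : ∀ u, p u → q u) :
    nb v p ≤ nb v q := by
  unfold nb
  refine card_le_card ?_
  intro u hu
  rw [mem_filter] at hu ⊢
  exact ⟨hu.1, hu.2.1, h u hu.2.2⟩

theorem ext_min (hn : 6 ≤ n) {R : Finset (Fin d → Fin n)} (h1 : R1 n d ⊆ R) (h2 : R ⊆ Gd n d)
    (h3 : ∀ v ∈ Gd n d, v ∉ R → nb v (fun u => u ∈ R) ≠ kk v) (v : Fin d → Fin n) (hv : v ∉ R) :
    nb v (fun u => u ∈ R) ≠ kk v := by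
  by_cases hG : v ∈ Gd n d
  · exact h3 v hG hv
  intro heq
  by_cases hA : Ant2 v
  · obtain ⟨i, j, hij, hT⟩ := kk_two_iff.1 hA.1
    have hA' := (Ant2_iff hij hT).1 hA
    have hN := nbrs_two hij hT 0
    have h4 : nb v (fun u => u ∈ R1 n d) ≤ nb v (fun u => u ∈ R) := nb_mono fun u hu => h1 hu
    rw [nb_two hij.ne hT (out_dirs (by omega) hij hT (fun u hu => hu)), ind_congr hN.2.2.2.2.1,
      ind_congr hN.2.2.2.2.2.1, ind_congr hN.2.2.2.2.2.2.1, ind_congr hN.2.2.2.2.2.2.2] at h4
    have h5 := ant_count hn hA'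
    have h6 := hA.1
    omega
  · have hj : 2 ≤ SF (fJ n) v := by
      by_contra hc
      apply hG
      unfold Gd Fr
      rw [mem_filter, mem_filter]
      exact ⟨⟨mem_univ _, by omega⟩, hA⟩
    have hFr : ∀ u ∈ R, SF (fJ n) u ≤ 1 ∧ ¬ Ant2 u := by
      intro u hu
      have := h2 hu
      unfold Gd Fr at this
      rw [mem_filter, mem_filter] at this
      exact ⟨this.1.2, this.2⟩
    have hU : ∀ l, (v l : ℕ) + 1 < n → up v l ∈ R →
        isJ n (v l) ∧ (v l : ℕ) + 3 = n ∧ SF (fJ n) v = 2 := by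
      intro l hl hu
      have h4 := SF_up (fJ n) v l hl
      have h5 := (hFr _ hu).1
      have h6 : fJ n (v l) ≤ 1 := by unfold fJ; split_ifs <;> omega
      have h7 : fJ n (v l) = 1 := by omega
      have h8 : fJ n (v l + 1) = 0 := by omega
      have h9 : isJ n (v l) := by
        by_contra hc
        have : fJ n (v l) = 0 := if_neg hc
        omega
      have h10 : ¬ isJ n (v l + 1) := by
        intro hc
        have : fJ n (v l + 1) = 1 := if_pos hc
        omega
      refine ⟨h9, ?_, by omega⟩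
      unfold isJ at h9 h10
      omega
    have hD : ∀ l, 0 < (v l : ℕ) → dn v l ∈ R →
        isJ n (v l) ∧ (v l : ℕ) = 2 ∧ SF (fJ n) v = 2 := by
      intro l hl hu
      have h4 := SF_dn (fJ n) v l
      have h5 := (hFr _ hu).1
      have h6 : fJ n (v l) ≤ 1 := by unfold fJ; split_ifs <;> omega
      have h7 : fJ n (v l) = 1 := by omega
      have h8 : fJ n (v l - 1) = 0 := by omega
      have h9 : isJ n (v l) := by
        by_contra hc
        have : fJ n (v l) = 0 := if_neg hc
        omega
      have h10 : ¬ isJ n (v l - 1) := by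
        intro hc
        have : fJ n (v l - 1) = 1 := if_pos hc
        omega
      refine ⟨h9, ?_, by omega⟩
      unfold isJ at h9 h10
      omega
    set p : (Fin d → Fin n) → Prop := fun u => u ∈ R with hp
    have hle : ∀ l ∈ (univ : Finset (Fin d)), cU v p l + cD v p l ≤ fJ n (v l) := by
      intro l _
      unfold cU cD
      by_cases a1 : (v l : ℕ) + 1 < n ∧ p (up v l)
      · obtain ⟨b1, b2, -⟩ := hU l a1.1 a1.2
        have a2 : ¬ (0 < (v l : ℕ) ∧ p (dn v l)) := by
          rintro ⟨b3, b4⟩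
          obtain ⟨-, b5, -⟩ := hD l b3 b4
          omega
        rw [if_pos a1, if_neg a2]
        have : fJ n (v l) = 1 := if_pos b1
        omega
      · by_cases a2 : 0 < (v l : ℕ) ∧ p (dn v l)
        · obtain ⟨b1, -, -⟩ := hD l a2.1 a2.2
          rw [if_neg a1, if_pos a2]
          have : fJ n (v l) = 1 := if_pos b1
          omega
        · rw [if_neg a1, if_neg a2]
          exact Nat.zero_le _
    have hjk := jj_le_kk v
    have hsum : ∑ l, (cU v p l + cD v p l) ≤ SF (fJ n) v := Finset.sum_le_sum hle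
    have hnb : ∑ l, (cU v p l + cD v p l) = kk v := by rw [← nb_eq]; exact heq
    have hkj : kk v = SF (fJ n) v := by omega
    have heach := (Finset.sum_eq_sum_iff_of_le hle).1 (by rw [hnb, hkj]; rfl)
    -- the removed neighbour in a far direction
    have hdir : ∀ l, isJ n (v l) → SF (fJ n) v = 2 ∧
        (((v l : ℕ) + 3 = n ∧ up v l ∈ R) ∨ ((v l : ℕ) = 2 ∧ dn v l ∈ R)) := by
      intro l hl
      have h4 := heach l (mem_univ l)
      have h5 : fJ n (v l) = 1 := if_pos hl
      rw [h5] at h4
      unfold cU cD at h4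
      by_cases a1 : (v l : ℕ) + 1 < n ∧ p (up v l)
      · obtain ⟨b1, b2, b3⟩ := hU l a1.1 a1.2
        exact ⟨b3, Or.inl ⟨b2, a1.2⟩⟩
      · by_cases a2 : 0 < (v l : ℕ) ∧ p (dn v l)
        · obtain ⟨b1, b2, b3⟩ := hD l a2.1 a2.2
          exact ⟨b3, Or.inr ⟨b2, a2.2⟩⟩
        · rw [if_neg a1, if_neg a2] at h4
          omega
    obtain ⟨l0, hl0⟩ : ∃ l, isJ n (v l) := by
      by_contra hc
      push Not at hc
      have : SF (fJ n) v = 0 := Finset.sum_eq_zero fun l _ => if_neg (hc l)
      omega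
    have hj2 := (hdir l0 hl0).1
    obtain ⟨i, j, hij, hT⟩ := kk_two_iff.1 (hkj.trans hj2)
    have hJ : isJ n (v i) ∧ isJ n (v j) := by
      have h4 := sum_two (fJ n) hij.ne (v := v) (fun l h3 h4 => if_neg (fun h5 =>
        hT.2.2 l h3 h4 (by unfold isJ at h5; unfold isI; omega)))
      have h5 : fJ n (v i) ≤ 1 := by unfold fJ; split_ifs <;> omega
      have h6 : fJ n (v j) ≤ 1 := by unfold fJ; split_ifs <;> omega
      constructor
      · by_contra hc
        have : fJ n (v i) = 0 := if_neg hc
        omega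
      · by_contra hc
        have : fJ n (v j) = 0 := if_neg hc
        omega
    have hi1 := hT.1.2
    have hj1 := hT.2.1.2
    have hJi := hJ.1
    have hJj := hJ.2
    unfold isJ at hJi hJj
    have hne : i ≠ j := hij.ne
    -- antennas are not in `R`
    have hno : ∀ u ∈ R, isI n (u i) → isI n (u j) → (∀ l, l ≠ i → l ≠ j → ¬ isI n (u l)) →
        ¬ Ant n (u i) (u j) := by
      intro u hu c1 c2 c3 c4
      exact (hFr u hu).2 ((Ant2_iff hij ⟨c1, c2, c3⟩).2 c4)
    rcases (hdir i hJ.1).2 with ⟨e1, e2⟩ | ⟨e1, e2⟩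
    · rcases (hdir j hJ.2).2 with ⟨e3, e4⟩ | ⟨e3, e4⟩
      · refine hno _ e4 ?_ ?_ ?_ ?_
        · rw [up_other v hne]; exact hT.1
        · rw [up_same v j hj1]; unfold isI; omega
        · intro l h5 h6; rw [up_other v h6]; exact hT.2.2 l h5 h6
        · rw [up_other v hne, up_same v j hj1]; unfold Ant; omega
      · refine hno _ e2 ?_ ?_ ?_ ?_
        · rw [up_same v i hi1]; unfold isI; omega
        · rw [up_other v hne.symm]; exact hT.2.1
        · intro l h5 h6; rw [up_other v h5]; exact hT.2.2 l h5 h6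
        · rw [up_other v hne.symm, up_same v i hi1]; unfold Ant; omega
    · rcases (hdir j hJ.2).2 with ⟨e3, e4⟩ | ⟨e3, e4⟩
      · refine hno _ e2 ?_ ?_ ?_ ?_
        · rw [dn_same v i]; unfold isI; omega
        · rw [dn_other v hne.symm]; exact hT.2.1
        · intro l h5 h6; rw [dn_other v h5]; exact hT.2.2 l h5 h6
        · rw [dn_other v hne.symm, dn_same v i]; unfold Ant; omega
      · refine hno _ e4 ?_ ?_ ?_ ?_
        · rw [dn_other v hne]; exact hT.1
        · rw [dn_same v j]; unfold isI; omega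
        · intro l h5 h6; rw [dn_other v h6]; exact hT.2.2 l h5 h6
        · rw [dn_other v hne, dn_same v j]; unfold Ant; omega

/-- near values -/
noncomputable def Qn (n : ℕ) : Finset (Fin n) := univ.filter fun x => ¬ isJ n x

theorem Qn_card : (Qn n).card ≤ 4 := by
  have h : (Qn n).image (fun x : Fin n => (x : ℕ)) ⊆ ({0, 1, n - 2, n - 1} : Finset ℕ) := by
    intro x hx
    obtain ⟨y, hy, rfl⟩ := mem_image.1 hx
    unfold Qn at hy
    rw [mem_filter] at hy
    have hy2 := hy.2
    unfold isJ at hy2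
    have := y.2
    simp only [mem_insert, mem_singleton]
    omega
  have h1 := card_le_card h
  rw [card_image_of_injective _ Fin.val_injective] at h1
  exact h1.trans Finset.card_le_four

theorem Fr_card (hd : 1 ≤ d) : (Fr n d).card ≤ d * (n * 4 ^ (d - 1)) := by
  have hsub : Fr n d ⊆ univ.biUnion fun i : Fin d =>
      Fintype.piFinset (fun l => if l = i then (univ : Finset (Fin n)) else Qn n) := by
    intro v hv
    unfold Fr at hv
    rw [mem_filter] at hv
    have hex : ∃ i, ∀ l, l ≠ i → ¬ isJ n (v l) := by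
      by_contra hc
      push Not at hc
      obtain ⟨l0, -, hl0⟩ := hc ⟨0, hd⟩
      obtain ⟨l1, hl1, hl1'⟩ := hc l0
      have h1 : fJ n (v l1) + fJ n (v l0) ≤ SF (fJ n) v := by
        rw [← Finset.sum_pair (f := fun l => fJ n (v l)) hl1]
        exact Finset.sum_le_sum_of_subset (subset_univ _)
      have h2 : fJ n (v l0) = 1 := if_pos hl0
      have h3 : fJ n (v l1) = 1 := if_pos hl1'
      have := hv.2
      omega
    obtain ⟨i, hi⟩ := hex
    refine mem_biUnion.2 ⟨i, mem_univ _, ?_⟩
    rw [Fintype.mem_piFinset]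
    intro l
    by_cases hl : l = i
    · rw [if_pos hl]; exact mem_univ _
    · rw [if_neg hl]
      unfold Qn
      rw [mem_filter]
      exact ⟨mem_univ _, hi l hl⟩
  refine (card_le_card hsub).trans (card_biUnion_le.trans ?_)
  have hone : ∀ i : Fin d, (Fintype.piFinset (fun l => if l = i then (univ : Finset (Fin n))
      else Qn n)).card ≤ n * 4 ^ (d - 1) := by
    intro i
    rw [Fintype.card_piFinset, ← Finset.mul_prod_erase univ _ (mem_univ i)]
    refine Nat.mul_le_mul ?_ ?_
    · rw [if_pos rfl, card_univ, Fintype.card_fin]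
    · have h1 := Finset.prod_le_pow_card (univ.erase i)
        (fun l => (if l = i then (univ : Finset (Fin n)) else Qn n).card) 4 (fun l hl => by
          rw [if_neg (ne_of_mem_erase hl)]
          exact Qn_card)
      rw [card_erase_of_mem (mem_univ i), card_univ, Fintype.card_fin] at h1
      exact h1
  calc ∑ i : Fin d, (Fintype.piFinset (fun l => if l = i then (univ : Finset (Fin n))
      else Qn n)).card ≤ ∑ _i : Fin d, n * 4 ^ (d - 1) := Finset.sum_le_sum fun i _ => hone i
    _ = d * (n * 4 ^ (d - 1)) := by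
      rw [Finset.sum_const, card_univ, Fintype.card_fin, smul_eq_mul]

/-! ### Sizes -/

theorem isGreatest_M (n d : ℕ) : IsGreatest (Sizes n d) (M n d) := by
  have hne : (Sizes n d).Nonempty := by
    obtain ⟨P, hP, hmin⟩ := Set.exists_min_image {P : Set (Fin d → Fin n) | Reachable P}
      Set.ncard (Set.toFinite _) ⟨Set.univ, Relation.ReflTransGen.refl⟩
    refine ⟨P.ncard, P, hP, ?_, rfl⟩
    intro v hv hdeg
    have h1 := hmin (P \ {v}) (Relation.ReflTransGen.tail hP ⟨v, hv, hdeg, rfl⟩)
    have h2 := Set.ncard_sdiff_singleton_lt_of_mem hv (Set.toFinite P)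
    omega
  have hbd : BddAbove (Sizes n d) := by
    refine ⟨(Set.univ : Set (Fin d → Fin n)).ncard, ?_⟩
    rintro m ⟨P, -, -, rfl⟩
    exact Set.ncard_le_ncard (Set.subset_univ P) (Set.toFinite _)
  exact ⟨Nat.sSup_mem hne hbd, fun m hm => le_csSup hbd hm⟩

theorem ncard_compl' (R : Finset (Fin d → Fin n)) :
    ((R : Set (Fin d → Fin n))ᶜ).ncard + R.card = n ^ d := by
  rw [← Finset.coe_compl, Set.ncard_coe_finset]
  rw [add_comm, Finset.card_add_card_compl]
  simp

theorem sizes_elim (hn : 2 ≤ n) {m : ℕ} (h : m ∈ Sizes n d) :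
    ∃ (R : Finset (Fin d → Fin n)) (r : (Fin d → Fin n) → ℕ), Valid R r ∧
      (∀ v, v ∉ R → nb v (fun u => u ∈ R) ≠ kk v) ∧ m + R.card = n ^ d := by
  obtain ⟨P, hP, hmin, rfl⟩ := h
  obtain ⟨R, r, rfl, hR⟩ := valid_of_reach hn hP
  refine ⟨R, r, hR, ?_, ncard_compl' R⟩
  intro v hv h
  exact hmin v (by simpa using hv) ((deg_iff hn R v).2 h)

theorem sizes_intro (hn : 2 ≤ n) {R : Finset (Fin d → Fin n)}
    (hR : Reachable ((R : Set (Fin d → Fin n))ᶜ))
    (hmin : ∀ v, v ∉ R → nb v (fun u => u ∈ R) ≠ kk v) :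
    ∃ m ∈ Sizes n d, m + R.card = n ^ d := by
  refine ⟨_, ⟨_, hR, ?_, rfl⟩, ncard_compl' R⟩
  intro v hv h
  exact hmin v (by simpa using hv) ((deg_iff hn R v).1 h)

theorem upper (hd : 1 ≤ d) (hn : 6 ≤ n) : n ^ d ≤ M n d + d * 4 ^ (d - 1) * n := by
  obtain ⟨R, h1, h2, h3, h4⟩ := maxext (d := d) hn
  obtain ⟨m, hm, hm'⟩ := sizes_intro (by omega) h3 (ext_min hn h1 h2 h4)
  have h5 := (isGreatest_M n d).2 hm
  have h6 : R.card ≤ d * (n * 4 ^ (d - 1)) :=
    (card_le_card h2).trans ((card_le_card (filter_subset _ _)).trans (Fr_card hd))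
  have h7 : d * (n * 4 ^ (d - 1)) = d * 4 ^ (d - 1) * n := by ring
  omega

theorem lower (hd : 1 ≤ d) (hn : 2 ≤ n) : M n d + 2 ^ d * ((n - 2) / 2) ≤ n ^ d := by
  obtain ⟨R, r, h1, h2, h3⟩ := sizes_elim hn (isGreatest_M n d).1
  have := gap_lower hd h1 h2 hn
  omega


/-! ### The cases `n = 3` and `n = 2` -/

theorem nb_ne_zero {v : Fin d → Fin n} {p : (Fin d → Fin n) → Prop} {u : Fin d → Fin n}
    (h : Adj v u) (hp : p u) : nb v p ≠ 0 := by
  have h1 : u ∈ univ.filter fun u => Adj v u ∧ p u := by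
    rw [mem_filter]
    exact ⟨mem_univ _, h, hp⟩
  have h2 := Finset.card_pos.2 ⟨u, h1⟩
  unfold nb
  omega

/-- all corner cubes are hit -/
theorem corner_bound {R : Finset (Fin d → Fin n)} {r : (Fin d → Fin n) → ℕ} (hn : 3 ≤ n)
    (h : Valid R r) (hmin : ∀ v, v ∉ R → nb v (fun u => u ∈ R) ≠ kk v) : 2 ^ d ≤ R.card := by
  refine le_trans ?_ (hit_card h)
  have hcard : (univ : Finset (Fin d → Bool)).card = 2 ^ d := by simp
  rw [← hcard]
  refine Finset.card_le_card_of_injOn
    (fun s i => if s i then (⟨n - 2, by omega⟩ : Fin n) else ⟨0, by omega⟩) ?_ ?_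
  · intro s _
    apply Finset.mem_coe.2
    unfold hit
    rw [mem_filter]
    refine ⟨mem_univ _, ?_, ?_⟩
    · intro i
      by_cases hs : s i
      · simp only [hs, if_true]
        omega
      · simp [hs]
        omega
    · -- the corner
      set c : Fin d → Fin n := fun i => if s i then ⟨n - 1, by omega⟩ else ⟨0, by omega⟩ with hc
      have hcube : ∀ u : Fin d → Fin n, (u = c ∨ Adj c u) → InCube (fun i =>
          (((if s i then (⟨n - 2, by omega⟩ : Fin n) else ⟨0, by omega⟩) : Fin n) : ℕ)) u := by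
        rintro u (rfl | hu) i
        · rw [hc]
          by_cases hs : s i
          · simp only [hs, if_true]
            omega
          · simp [hs]
        · obtain ⟨l, h1, h2⟩ := hu
          by_cases hl : i = l
          · subst hl
            have := (u i).2
            by_cases hs : s i
            · have e : (c i : ℕ) = n - 1 := by rw [hc]; simp [hs]
              simp only [hs, if_true]
              omega
            · have e : (c i : ℕ) = 0 := by rw [hc]; simp [hs]
              simp only [hs]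
              simp
              omega
          · rw [← h2 i hl, hc]
            by_cases hs : s i
            · simp only [hs, if_true]
              omega
            · simp [hs]
      by_cases hcR : c ∈ R
      · exact ⟨c, hcR, hcube c (Or.inl rfl)⟩
      · have hk : kk c = 0 := by
          rw [kk_zero_iff]
          intro i
          rw [hc]
          unfold isI
          by_cases hs : s i
          · simp only [hs, if_true]
            omega
          · simp [hs]
        have h1 := hmin c hcR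
        rw [hk] at h1
        have h2 : ∃ u, Adj c u ∧ u ∈ R := by
          by_contra hcon
          push Not at hcon
          exact h1 (nb_zero hcon)
        obtain ⟨u, hu, huR⟩ := h2
        exact ⟨u, huR, hcube u (Or.inr hu)⟩
  · intro s _ s' _ hss
    funext i
    have h1 := congrFun hss i
    by_cases a : s i <;> by_cases b : s' i
    · rw [a, b]
    · simp only [a, b] at h1
      have h2 := congrArg Fin.val h1
      simp at h2
      omega
    · simp only [a, b] at h1
      have h2 := congrArg Fin.val h1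
      simp at h2
      omega
    · rw [Bool.not_eq_true] at a b
      rw [a, b]

theorem three (d : ℕ) : M 3 d + 2 ^ d = 3 ^ d := by
  -- the construction
  set R : Finset (Fin d → Fin 3) := univ.filter fun v => kk v = 0 with hR
  have hcard : R.card = 2 ^ d := by
    have h1 : R = Fintype.piFinset (fun _ : Fin d => ({0, 2} : Finset (Fin 3))) := by
      ext v
      rw [hR, mem_filter, Fintype.mem_piFinset, kk_zero_iff]
      simp only [mem_univ, true_and, mem_insert, mem_singleton]
      refine forall_congr' fun i => ?_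
      unfold isI
      generalize v i = x
      fin_cases x <;> simp
    rw [h1, Fintype.card_piFinset]
    simp
  have hval : Valid R (fun _ => 0) := by
    constructor
    · intro v hv
      rw [hR, mem_filter] at hv
      rw [hv.2]
      exact nb_zero fun u _ h => lt_irrefl _ h.2
    · intro u hu v hv huv
      rw [hR, mem_filter, kk_zero_iff] at hu hv
      exfalso
      obtain ⟨i, h1, -⟩ := huv
      have h2 := hu.2 i
      have h3 := hv.2 i
      have := (u i).2
      have := (v i).2
      unfold isI at h2 h3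
      omega
  have hmin : ∀ v, v ∉ R → nb v (fun u => u ∈ R) ≠ kk v := by
    intro v hv
    have hk : kk v ≠ 0 := fun h => hv (by rw [hR, mem_filter]; exact ⟨mem_univ _, h⟩)
    by_cases h1 : kk v = 1
    · obtain ⟨i, hi⟩ := kk_one_iff.1 h1
      have hi0 := hi.1.1
      have hi1 := hi.1.2
      have hu : up v i ∈ R := by
        rw [hR, mem_filter, kk_zero_iff]
        refine ⟨mem_univ _, fun l => ?_⟩
        by_cases hl : l = i
        · rw [hl, up_same v i hi1]
          unfold isI
          omega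
        · rw [up_other v hl]
          exact hi.2 l hl
      have hd : dn v i ∈ R := by
        rw [hR, mem_filter, kk_zero_iff]
        refine ⟨mem_univ _, fun l => ?_⟩
        by_cases hl : l = i
        · rw [hl, dn_same v i]
          unfold isI
          omega
        · rw [dn_other v hl]
          exact hi.2 l hl
      have h2 : cU v (fun u => u ∈ R) i + cD v (fun u => u ∈ R) i ≤ nb v (fun u => u ∈ R) := by
        rw [nb_eq]
        exact Finset.single_le_sum (f := fun l => cU v (fun u => u ∈ R) l +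
          cD v (fun u => u ∈ R) l) (fun _ _ => Nat.zero_le _) (mem_univ i)
      rw [cU_int hi.1, cD_int hi.1, ind_pos hu, ind_pos hd] at h2
      omega
    · rw [nb_zero]
      · omega
      · intro u hu huR
        rw [hR, mem_filter] at huR
        rw [adj_iff] at hu
        obtain ⟨i, ⟨h2, rfl⟩ | ⟨h2, rfl⟩⟩ := hu
        · have h3 := SF_up (fI 3) v i h2
          rw [← kk_SF, ← kk_SF] at h3
          have h4 : fI 3 (v i) ≤ 1 := by unfold fI; split_ifs <;> omega
          omega
        · have h3 := SF_dn (fI 3) v i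
          rw [← kk_SF, ← kk_SF] at h3
          have h4 : fI 3 (v i) ≤ 1 := by unfold fI; split_ifs <;> omega
          omega
  obtain ⟨m, hm, hm'⟩ := sizes_intro (by norm_num) (reach_of_valid (by norm_num) R _ hval) hmin
  have h1 := (isGreatest_M 3 d).2 hm
  obtain ⟨R', r', h2, h3, h4⟩ := sizes_elim (by norm_num) (isGreatest_M 3 d).1
  have h5 := corner_bound (le_refl 3) h2 h3
  omega

theorem two (d : ℕ) : M 2 d + indDom d = 2 ^ d := by
  have hk : ∀ v : Fin d → Fin 2, kk v = 0 := by
    intro v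
    rw [kk_zero_iff]
    intro i
    have := (v i).2
    unfold isI
    omega
  set S : Set ℕ := {m | ∃ I : Set (Fin d → Fin 2), (∀ u ∈ I, ∀ v ∈ I, ¬ Adj u v) ∧
    (∀ v, v ∉ I → ∃ u ∈ I, Adj v u) ∧ I.ncard = m} with hS
  -- the removed sets are the independent dominating sets
  have h1 : ∀ R : Finset (Fin d → Fin 2), ∀ r, Valid R r →
      (∀ v, v ∉ R → nb v (fun u => u ∈ R) ≠ kk v) → R.card ∈ S := by
    intro R r hR hmin
    refine ⟨(R : Set (Fin d → Fin 2)), ?_, ?_, Set.ncard_coe_finset R⟩
    · intro u hu v hv huv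
      have hu' := Finset.mem_coe.1 hu
      have hv' := Finset.mem_coe.1 hv
      have hne := hR.ne u hu' v hv' huv
      have key : ∀ a b : Fin d → Fin 2, a ∈ R → b ∈ R → Adj a b → ¬ r b < r a := by
        intro a b ha hb hab hlt
        have h2 := hR.cnt a ha
        rw [hk] at h2
        exact nb_ne_zero hab ⟨hb, hlt⟩ h2
      have k1 := key u v hu' hv' huv
      have k2 := key v u hv' hu' (adj_symm huv)
      omega
    · intro v hv
      have hv' : v ∉ R := fun h => hv (Finset.mem_coe.2 h)
      have h2 := hmin v hv'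
      rw [hk] at h2
      by_contra hcon
      push Not at hcon
      exact h2 (nb_zero fun u hu huR => hcon u (Finset.mem_coe.2 huR) hu)
  have h2 : ∀ m ∈ S, ∃ m' ∈ Sizes 2 d, m' + m = 2 ^ d := by
    rintro m ⟨I, hI1, hI2, rfl⟩
    obtain ⟨R, rfl⟩ : ∃ R : Finset (Fin d → Fin 2), (R : Set (Fin d → Fin 2)) = I :=
      ⟨(Set.toFinite I).toFinset, (Set.toFinite I).coe_toFinset⟩
    have hval : Valid R (fun _ => 0) := by
      constructor
      · intro v _
        rw [hk]
        exact nb_zero fun u _ h => lt_irrefl _ h.2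
      · intro u hu v hv huv
        exact absurd huv (hI1 u (Finset.mem_coe.2 hu) v (Finset.mem_coe.2 hv))
    obtain ⟨m', hm', h3⟩ := sizes_intro (le_refl 2) (reach_of_valid (le_refl 2) R _ hval) (by
      intro v hv
      rw [hk]
      obtain ⟨u, hu, hvu⟩ := hI2 v (fun h => hv (Finset.mem_coe.1 h))
      exact nb_ne_zero hvu (Finset.mem_coe.1 hu))
    exact ⟨m', hm', by rw [Set.ncard_coe_finset]; exact h3⟩
  obtain ⟨R, r, h3, h4, h5⟩ := sizes_elim (le_refl 2) (isGreatest_M 2 d).1
  have h6 := h1 R r h3 h4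
  have h7 : indDom d ≤ R.card := Nat.sInf_le h6
  have h8 : indDom d ∈ S := Nat.sInf_mem ⟨_, h6⟩
  obtain ⟨m', hm', h9⟩ := h2 _ h8
  have h10 := (isGreatest_M 2 d).2 hm'
  omega

theorem result :
    (∀ n d : ℕ, IsGreatest (Sizes n d) (M n d)) ∧
    (∀ n d : ℕ, 1 ≤ d → 2 ≤ n → M n d + 2 ^ d * ((n - 2) / 2) ≤ n ^ d) ∧
    (∀ n d : ℕ, 1 ≤ d → 6 ≤ n → n ^ d ≤ M n d + d * 4 ^ (d - 1) * n) ∧
    (∀ d : ℕ, M 3 d + 2 ^ d = 3 ^ d) ∧
    (∀ d : ℕ, M 2 d + indDom d = 2 ^ d) :=
  ⟨isGreatest_M, fun _ _ hd hn => lower hd hn, fun _ _ hd hn => upper hd hn, three, two⟩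

end Pool.Agent.Results.MP_58c4c2_co.LinearGap
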