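import Mathlib

/-!
# MP_58c4c2_co: the largest minimal percolating sets of the square grid

`M(n, 2) = (n - 2)^2 + 4` for all `n ≥ 3`, `M(1, 2) = 1`, `M(2, 2) = 2`.
-/

set_option autoImplicit false

namespace Pool.Agent.Results.MP_58c4c2_co.SquareValue

/-! ### Definitions -/

/-- Two vertices of `[n]^d` are adjacent if they differ by exactly `1` in exactly one
coordinate. -/
def Adj {n d : ℕ} (x y : Fin d → Fin n) : Prop :=
  ∃ i, ((x i : ℕ) + 1 = y i ∨ (y i : ℕ) + 1 = x i) ∧ ∀ j, j ≠ i → x j = y j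

/-- The number of neighbours of `v` in the position `P`. -/
noncomputable def deg {n d : ℕ} (P : Set (Fin d → Fin n)) (v : Fin d → Fin n) : ℕ :=
  {u | u ∈ P ∧ Adj v u}.ncard

/-- A move removes a vertex of degree exactly `d`. -/
def Move {n d : ℕ} (P Q : Set (Fin d → Fin n)) : Prop :=
  ∃ v ∈ P, deg P v = d ∧ Q = P \ {v}

/-- `P` is reachable: it arises from `[n]^d` by a finite sequence of moves. -/
def Reachable {n d : ℕ} (P : Set (Fin d → Fin n)) : Prop :=
  Relation.ReflTransGen Move Set.univ P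

/-- `P` is minimal: none of its vertices has degree exactly `d`. -/
def Minimal {n d : ℕ} (P : Set (Fin d → Fin n)) : Prop := ∀ v ∈ P, deg P v ≠ d

/-- The sizes of the minimal percolating sets (reachable minimal positions) in `[n]^d`. -/
def Sizes (n d : ℕ) : Set ℕ :=
  {m | ∃ P : Set (Fin d → Fin n), Reachable P ∧ Minimal P ∧ P.ncard = m}

/-! ### Finite subsets of the plane -/

/-- the four directions -/
def D : Finset (ℤ × ℤ) := {(1, 0), (-1, 0), (0, 1), (0, -1)}

/-- degree -/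
def dg (Q : Finset (ℤ × ℤ)) (w : ℤ × ℤ) : ℕ := (D.filter fun δ => w + δ ∈ Q).card

/-- exposed sides in one direction -/
def ex (Q : Finset (ℤ × ℤ)) (δ : ℤ × ℤ) : ℕ := (Q.filter fun w => w + δ ∉ Q).card

/-- perimeter -/
def per (Q : Finset (ℤ × ℤ)) : ℕ := ∑ δ ∈ D, ex Q δ

theorem D_ne {δ : ℤ × ℤ} (h : δ ∈ D) : δ ≠ 0 := by
  rintro rfl
  revert h
  decide

theorem D_neg {δ : ℤ × ℤ} (h : δ ∈ D) : -δ ∈ D := by
  simp only [D, Finset.mem_insert, Finset.mem_singleton] at h ⊢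
  rcases h with rfl | rfl | rfl | rfl <;> decide

theorem D_card : D.card = 4 := by decide

theorem ex_erase (Q : Finset (ℤ × ℤ)) (v δ : ℤ × ℤ) (hv : v ∈ Q) (hδ : δ ≠ 0) :
    ex (Q.erase v) δ + (if v + δ ∉ Q then 1 else 0) = ex Q δ + (if v - δ ∈ Q then 1 else 0) := by
  have hvv : v + δ ≠ v := fun h => hδ (by simpa using h)
  have hvv' : v - δ ≠ v := fun h => hδ (by simpa using h)
  have e1 : ex (Q.erase v) δ = ∑ w ∈ Q.erase v, (if w + δ ∉ Q.erase v then 1 else 0) := by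
    rw [ex, Finset.card_filter]
  have e2 : ex Q δ = ∑ w ∈ Q, (if w + δ ∉ Q then 1 else 0) := by
    rw [ex, Finset.card_filter]
  have e3 : ∀ w, (if w + δ ∉ Q.erase v then 1 else 0) =
      (if w + δ ∉ Q then 1 else 0) + (if w = v - δ then 1 else 0) := by
    intro w
    by_cases h1 : w = v - δ
    · have h2 : w + δ = v := by rw [h1]; abel
      rw [h2]
      simp [hv, h1]
    · have h2 : w + δ ≠ v := fun h => h1 (by rw [← h]; abel)
      simp [h2, h1, Finset.mem_erase]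
  rw [e1, Finset.sum_congr rfl (fun w _ => e3 w), Finset.sum_add_distrib, e2,
    ← Finset.add_sum_erase Q _ hv, Finset.sum_ite_eq' (Q.erase v) (v - δ)]
  have e4 : (v - δ ∈ Q.erase v) ↔ v - δ ∈ Q := by
    rw [Finset.mem_erase]
    exact ⟨fun h => h.2, fun h => ⟨hvv', h⟩⟩
  simp only [e4]
  ring

theorem sum_ite_neg (p : ℤ × ℤ → Prop) [DecidablePred p] :
    ∑ δ ∈ D, (if p (-δ) then 1 else 0) = ∑ δ ∈ D, (if p δ then 1 else 0) := by
  refine Finset.sum_nbij' (fun δ => -δ) (fun δ => -δ) (fun δ h => D_neg h) (fun δ h => D_neg h)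
    (fun δ _ => neg_neg δ) (fun δ _ => neg_neg δ) (fun δ _ => rfl)

theorem per_erase (Q : Finset (ℤ × ℤ)) (v : ℤ × ℤ) (hv : v ∈ Q) :
    per (Q.erase v) + 4 = per Q + 2 * dg Q v := by
  have h1 : ∑ δ ∈ D, (ex (Q.erase v) δ + (if v + δ ∉ Q then 1 else 0)) =
      ∑ δ ∈ D, (ex Q δ + (if v - δ ∈ Q then 1 else 0)) :=
    Finset.sum_congr rfl fun δ hδ => ex_erase Q v δ hv (D_ne hδ)
  rw [Finset.sum_add_distrib, Finset.sum_add_distrib] at h1
  have h2 : ∑ δ ∈ D, (if v - δ ∈ Q then 1 else 0) = dg Q v := by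
    rw [dg, Finset.card_filter, ← sum_ite_neg (fun δ => v + δ ∈ Q)]
    rfl
  have h3 : ∑ δ ∈ D, (if v + δ ∉ Q then 1 else 0) + dg Q v = 4 := by
    rw [dg, Finset.card_filter, ← Finset.sum_add_distrib, ← D_card, Finset.card_eq_sum_ones]
    refine Finset.sum_congr rfl fun δ _ => ?_
    by_cases h : v + δ ∈ Q <;> simp [h]
  rw [h2] at h1
  unfold per
  omega

/-- rows and columns -/
theorem ex_ge_rows (Q : Finset (ℤ × ℤ)) :
    (Q.image Prod.snd).card ≤ ex Q (1, 0) ∧ (Q.image Prod.snd).card ≤ ex Q (-1, 0) ∧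
      (Q.image Prod.fst).card ≤ ex Q (0, 1) ∧ (Q.image Prod.fst).card ≤ ex Q (0, -1) := by
  refine ⟨?_, ?_, ?_, ?_⟩
  · refine le_trans (Finset.card_le_card ?_) (Finset.card_image_le (s := Q.filter
      fun w => w + (1, 0) ∉ Q) (f := Prod.snd))
    intro y hy
    obtain ⟨w, hw, rfl⟩ := Finset.mem_image.1 hy
    obtain ⟨u, hu, hmax⟩ := Finset.exists_max_image (Q.filter fun u => u.2 = w.2) Prod.fst
      ⟨w, by simp [hw]⟩
    rw [Finset.mem_filter] at hu
    refine Finset.mem_image.2 ⟨u, Finset.mem_filter.2 ⟨hu.1, fun h => ?_⟩, hu.2⟩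
    have := hmax (u + (1, 0)) (Finset.mem_filter.2 ⟨h, by simpa using hu.2⟩)
    simp at this
  · refine le_trans (Finset.card_le_card ?_) (Finset.card_image_le (s := Q.filter
      fun w => w + (-1, 0) ∉ Q) (f := Prod.snd))
    intro y hy
    obtain ⟨w, hw, rfl⟩ := Finset.mem_image.1 hy
    obtain ⟨u, hu, hmax⟩ := Finset.exists_min_image (Q.filter fun u => u.2 = w.2) Prod.fst
      ⟨w, by simp [hw]⟩
    rw [Finset.mem_filter] at hu
    refine Finset.mem_image.2 ⟨u, Finset.mem_filter.2 ⟨hu.1, fun h => ?_⟩, hu.2⟩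
    have := hmax (u + (-1, 0)) (Finset.mem_filter.2 ⟨h, by simpa using hu.2⟩)
    simp at this
  · refine le_trans (Finset.card_le_card ?_) (Finset.card_image_le (s := Q.filter
      fun w => w + (0, 1) ∉ Q) (f := Prod.fst))
    intro y hy
    obtain ⟨w, hw, rfl⟩ := Finset.mem_image.1 hy
    obtain ⟨u, hu, hmax⟩ := Finset.exists_max_image (Q.filter fun u => u.1 = w.1) Prod.snd
      ⟨w, by simp [hw]⟩
    rw [Finset.mem_filter] at hu
    refine Finset.mem_image.2 ⟨u, Finset.mem_filter.2 ⟨hu.1, fun h => ?_⟩, hu.2⟩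
    have := hmax (u + (0, 1)) (Finset.mem_filter.2 ⟨h, by simpa using hu.2⟩)
    simp at this
  · refine le_trans (Finset.card_le_card ?_) (Finset.card_image_le (s := Q.filter
      fun w => w + (0, -1) ∉ Q) (f := Prod.fst))
    intro y hy
    obtain ⟨w, hw, rfl⟩ := Finset.mem_image.1 hy
    obtain ⟨u, hu, hmax⟩ := Finset.exists_min_image (Q.filter fun u => u.1 = w.1) Prod.snd
      ⟨w, by simp [hw]⟩
    rw [Finset.mem_filter] at hu
    refine Finset.mem_image.2 ⟨u, Finset.mem_filter.2 ⟨hu.1, fun h => ?_⟩, hu.2⟩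
    have := hmax (u + (0, -1)) (Finset.mem_filter.2 ⟨h, by simpa using hu.2⟩)
    simp at this

/-- the isoperimetric inequality -/
theorem iso (Q : Finset (ℤ × ℤ)) : 16 * Q.card ≤ per Q ^ 2 := by
  obtain ⟨h1, h2, h3, h4⟩ := ex_ge_rows Q
  have h5 : Q.card ≤ (Q.image Prod.fst).card * (Q.image Prod.snd).card := by
    rw [← Finset.card_product]
    refine Finset.card_le_card fun w hw => ?_
    rw [Finset.mem_product]
    exact ⟨Finset.mem_image_of_mem _ hw, Finset.mem_image_of_mem _ hw⟩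
  have h6 : per Q = ex Q (1, 0) + ex Q (-1, 0) + ex Q (0, 1) + ex Q (0, -1) := by
    rw [per, D, Finset.sum_insert (by decide), Finset.sum_insert (by decide),
      Finset.sum_insert (by decide), Finset.sum_singleton]
    ring
  set r := (Q.image Prod.snd).card
  set c := (Q.image Prod.fst).card
  have h7 : 2 * (r + c) ≤ per Q := by omega
  have h8 : (2 * (r + c)) ^ 2 ≤ per Q ^ 2 := Nat.pow_le_pow_left h7 2
  have h9 : 16 * (c * r) ≤ (2 * (r + c)) ^ 2 := by
    zify
    nlinarith [sq_nonneg ((r : ℤ) - c)]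
  omega

/-! ### The upper bound -/

theorem dg_mono {Q Q' : Finset (ℤ × ℤ)} (h : Q' ⊆ Q) (w : ℤ × ℤ) : dg Q' w ≤ dg Q w :=
  Finset.card_le_card fun δ hδ => by
    rw [Finset.mem_filter] at hδ ⊢
    exact ⟨hδ.1, h hδ.2⟩

/-- removing cells of degree at most one -/
theorem per_sdiff (Q : Finset (ℤ × ℤ)) (S : Finset (ℤ × ℤ)) :
    S ⊆ Q → (∀ w ∈ S, dg Q w ≤ 1) → per (Q \ S) + 2 * S.card ≤ per Q := by
  induction S using Finset.induction_on with
  | empty => intro _ _; simp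
  | insert v S hv ih =>
    intro hS hd
    have h1 := ih (fun w hw => hS (Finset.mem_insert_of_mem hw))
      (fun w hw => hd w (Finset.mem_insert_of_mem hw))
    have hvQ : v ∈ Q := hS (Finset.mem_insert_self v S)
    have hvQS : v ∈ Q \ S := Finset.mem_sdiff.2 ⟨hvQ, hv⟩
    have h2 := per_erase (Q \ S) v hvQS
    have h3 : dg (Q \ S) v ≤ 1 :=
      (dg_mono Finset.sdiff_subset v).trans (hd v (Finset.mem_insert_self v S))
    have h4 : Q \ insert v S = (Q \ S).erase v := by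
      ext w
      simp only [Finset.mem_sdiff, Finset.mem_insert, Finset.mem_erase]
      tauto
    rw [h4, Finset.card_insert_of_notMem hv]
    omega

/-- the neighbours of `c` in `Q` outside of `C` -/
def xe (Q C : Finset (ℤ × ℤ)) (c : ℤ × ℤ) : ℕ := (D.filter fun δ => c + δ ∈ Q ∧ c + δ ∉ C).card

/-- every cell of degree at most one has at most one neighbour -/
theorem xe_sum (Q C E : Finset (ℤ × ℤ)) (hC : C ⊆ Q) (hE : E ⊆ C)
    (hL : ∀ w ∈ Q, w ∉ C → dg Q w ≤ 1) : ∑ e ∈ E, xe Q C e ≤ (Q \ C).card := by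
  unfold xe
  rw [← Finset.card_sigma]
  refine Finset.card_le_card_of_injOn (fun p => p.1 + p.2) ?_ ?_
  · intro p hp
    simp only [Finset.coe_sigma, Set.mem_sigma_iff, Finset.mem_coe, Finset.mem_filter] at hp
    rw [Finset.mem_coe, Finset.mem_sdiff]
    exact hp.2.2
  · rintro ⟨e, δ⟩ hp ⟨e', δ'⟩ hp' h
    simp only [Finset.coe_sigma, Set.mem_sigma_iff, Finset.mem_coe, Finset.mem_filter] at hp hp' h
    obtain ⟨he, hδ, hQ, hnC⟩ := hp
    obtain ⟨he', hδ', -, -⟩ := hp'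
    have h1 := hL _ hQ hnC
    by_cases hδδ : δ = δ'
    · subst hδδ
      have : e = e' := add_right_cancel h
      rw [this]
    · exfalso
      have h2 : ({-δ, -δ'} : Finset (ℤ × ℤ)) ⊆ D.filter fun ε => e + δ + ε ∈ Q := by
        intro ε hε
        rw [Finset.mem_insert, Finset.mem_singleton] at hε
        rw [Finset.mem_filter]
        rcases hε with rfl | rfl
        · refine ⟨D_neg hδ, ?_⟩
          rw [add_neg_cancel_right]
          exact hC (hE he)
        · refine ⟨D_neg hδ', ?_⟩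
          rw [h, add_neg_cancel_right]
          exact hC (hE he')
      have h3 := Finset.card_le_card h2
      rw [Finset.card_pair (fun h => hδδ (neg_injective h))] at h3
      unfold dg at h1
      omega

theorem dg_eq (Q : Finset (ℤ × ℤ)) (w : ℤ × ℤ) : dg Q w =
    (if w + (1, 0) ∈ Q then 1 else 0) + (if w + (-1, 0) ∈ Q then 1 else 0) +
    (if w + (0, 1) ∈ Q then 1 else 0) + (if w + (0, -1) ∈ Q then 1 else 0) := by
  rw [dg, Finset.card_filter, D, Finset.sum_insert (by decide), Finset.sum_insert (by decide),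
    Finset.sum_insert (by decide), Finset.sum_singleton]
  ring

theorem xe_eq (Q C : Finset (ℤ × ℤ)) (w : ℤ × ℤ) : xe Q C w =
    (if w + (1, 0) ∈ Q ∧ w + (1, 0) ∉ C then 1 else 0) +
    (if w + (-1, 0) ∈ Q ∧ w + (-1, 0) ∉ C then 1 else 0) +
    (if w + (0, 1) ∈ Q ∧ w + (0, 1) ∉ C then 1 else 0) +
    (if w + (0, -1) ∈ Q ∧ w + (0, -1) ∉ C then 1 else 0) := by
  rw [xe, Finset.card_filter, D, Finset.sum_insert (by decide), Finset.sum_insert (by decide),
    Finset.sum_insert (by decide), Finset.sum_singleton]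
  ring

/-- four extreme cells -/
theorem extreme (C : Finset (ℤ × ℤ)) (hC : C.Nonempty) (s t : ℤ) (hs : s = 1 ∨ s = -1)
    (ht : t = 1 ∨ t = -1) : ∃ e ∈ C, e + (0, t) ∉ C ∧ e + (s, 0) ∉ C ∧
      ∀ w ∈ C, t * w.2 ≤ t * e.2 ∧ (w.2 = e.2 → s * w.1 ≤ s * e.1) := by
  obtain ⟨e, he, hmax⟩ := Finset.exists_max_image C (fun w => toLex (t * w.2, s * w.1)) hC
  have hw : ∀ w ∈ C, t * w.2 ≤ t * e.2 ∧ (w.2 = e.2 → s * w.1 ≤ s * e.1) := by
    intro w hw
    have h := hmax w hw
    rw [Prod.Lex.toLex_le_toLex] at h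
    rcases h with h | ⟨h, h'⟩
    · refine ⟨le_of_lt h, fun h2 => ?_⟩
      simp only at h
      rw [h2] at h
      exact absurd h (lt_irrefl _)
    · exact ⟨le_of_eq h, fun _ => h'⟩
  refine ⟨e, he, fun h => ?_, fun h => ?_, hw⟩
  · have := (hw _ h).1
    rcases ht with rfl | rfl <;> simp at this
  · have := (hw _ h).2 (by simp)
    rcases hs with rfl | rfl <;> simp at this

theorem xe_add (Q C : Finset (ℤ × ℤ)) (hC : C ⊆ Q) (e : ℤ × ℤ) : xe Q C e + dg C e = dg Q e := by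
  unfold xe dg
  rw [Finset.card_filter, Finset.card_filter, Finset.card_filter, ← Finset.sum_add_distrib]
  refine Finset.sum_congr rfl fun δ _ => ?_
  by_cases h : e + δ ∈ C
  · have h' := hC h
    simp [h, h']
  · by_cases h' : e + δ ∈ Q <;> simp [h, h']

/-- cells of degree at least three -/
theorem four_corners (Q C : Finset (ℤ × ℤ)) (hC : C ⊆ Q) (h3 : ∀ w ∈ C, 3 ≤ dg Q w)
    (hL : ∀ w ∈ Q, w ∉ C → dg Q w ≤ 1) (hC2 : 2 ≤ C.card) : 4 ≤ (Q \ C).card := by
  have hne : C.Nonempty := Finset.card_pos.1 (by omega)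
  obtain ⟨e1, he1, a1, b1, c1⟩ := extreme C hne 1 1 (Or.inl rfl) (Or.inl rfl)
  obtain ⟨e2, he2, a2, b2, c2⟩ := extreme C hne (-1) 1 (Or.inr rfl) (Or.inl rfl)
  obtain ⟨e3, he3, a3, b3, c3⟩ := extreme C hne 1 (-1) (Or.inl rfl) (Or.inr rfl)
  obtain ⟨e4, he4, a4, b4, c4⟩ := extreme C hne (-1) (-1) (Or.inr rfl) (Or.inr rfl)
  have x1 := xe_add Q C hC e1
  have x2 := xe_add Q C hC e2
  have x3 := xe_add Q C hC e3
  have x4 := xe_add Q C hC e4
  have y1 := h3 e1 he1
  have y2 := h3 e2 he2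
  have y3 := h3 e3 he3
  have y4 := h3 e4 he4
  have z1 := dg_eq C e1
  have z2 := dg_eq C e2
  have z3 := dg_eq C e3
  have z4 := dg_eq C e4
  rw [if_neg a1, if_neg b1] at z1
  rw [if_neg a2, if_neg b2] at z2
  rw [if_neg a3, if_neg b3] at z3
  rw [if_neg a4, if_neg b4] at z4
  have i1 : ∀ p : Prop, ∀ [Decidable p], (if p then 1 else 0) ≤ 1 := fun p _ => by
    split_ifs <;> omega
  have t1 := i1 (e1 + (-1, 0) ∈ C)
  have t1' := i1 (e1 + (0, -1) ∈ C)
  have t2 := i1 (e2 + (1, 0) ∈ C)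
  have t2' := i1 (e2 + (0, -1) ∈ C)
  have t3 := i1 (e3 + (-1, 0) ∈ C)
  have t3' := i1 (e3 + (0, 1) ∈ C)
  have t4 := i1 (e4 + (1, 0) ∈ C)
  have t4' := i1 (e4 + (0, 1) ∈ C)
  -- opposite corners are different
  have hone : ∀ e : ℤ × ℤ, ¬ ∀ w ∈ C, w = e := by
    intro e h
    have : C ⊆ {e} := fun w hw => Finset.mem_singleton.2 (h w hw)
    have := Finset.card_le_card this
    rw [Finset.card_singleton] at this
    omega
  have n14 : e1 ≠ e4 := by
    intro h
    apply hone e1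
    intro w hw
    have u1 := c1 w hw
    have u4 := c4 w hw
    rw [← h] at u4
    have h2 : w.2 = e1.2 := by omega
    have v1 := u1.2 h2
    have v4 := u4.2 h2
    exact Prod.ext (by omega) h2
  have n23 : e2 ≠ e3 := by
    intro h
    apply hone e2
    intro w hw
    have u1 := c2 w hw
    have u4 := c3 w hw
    rw [← h] at u4
    have h2 : w.2 = e2.2 := by omega
    have v1 := u1.2 h2
    have v4 := u4.2 h2
    exact Prod.ext (by omega) h2
  have hsum := fun E hE => xe_sum Q C E hC hE hL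
  have sub1 : ∀ {a b : ℤ × ℤ}, a ∈ C → b ∈ C → ({a, b} : Finset (ℤ × ℤ)) ⊆ C := by
    intro a b ha hb w hw
    rw [Finset.mem_insert, Finset.mem_singleton] at hw
    rcases hw with rfl | rfl <;> assumption
  have sub2 : ∀ {a b c : ℤ × ℤ}, a ∈ C → b ∈ C → c ∈ C →
      ({a, b, c} : Finset (ℤ × ℤ)) ⊆ C := by
    intro a b c ha hb hc w hw
    rw [Finset.mem_insert, Finset.mem_insert, Finset.mem_singleton] at hw
    rcases hw with rfl | rfl | rfl <;> assumption
  have sub3 : ({e1, e2, e3, e4} : Finset (ℤ × ℤ)) ⊆ C := by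
    intro w hw
    rw [Finset.mem_insert, Finset.mem_insert, Finset.mem_insert, Finset.mem_singleton] at hw
    rcases hw with rfl | rfl | rfl | rfl <;> assumption
  by_cases h12 : e1 = e2
  · have q1 : e1 + (-1, 0) ∉ C := by rw [h12]; exact b2
    rw [if_neg q1] at z1
    by_cases h34 : e3 = e4
    · have q3 : e3 + (-1, 0) ∉ C := by rw [h34]; exact b4
      rw [if_neg q3] at z3
      have n13 : e1 ≠ e3 := by rw [h34]; exact n14
      have := hsum _ (sub1 he1 he3)
      rw [Finset.sum_pair n13] at this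
      omega
    · have n13 : e1 ≠ e3 := by rw [h12]; exact n23
      have := hsum _ (sub2 he1 he3 he4)
      rw [Finset.sum_insert (by simp [n13, n14]), Finset.sum_pair h34] at this
      omega
  · by_cases h34 : e3 = e4
    · have q3 : e3 + (-1, 0) ∉ C := by rw [h34]; exact b4
      rw [if_neg q3] at z3
      have n13 : e1 ≠ e3 := by rw [h34]; exact n14
      have := hsum _ (sub2 he1 he2 he3)
      rw [Finset.sum_insert (by simp [h12, n13]), Finset.sum_pair n23] at this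
      omega
    · by_cases h13 : e1 = e3
      · have h24 : e2 = e4 := by
          have u1 := c2 e4 he4
          have u2 := c4 e2 he2
          have w1 := (c1 e2 he2).1
          have w2 := (c3 e4 he4).1
          have w3 := (c3 e2 he2).1
          have w4 := (c1 e4 he4).1
          rw [← h13] at w2 w3
          have h2 : e2.2 = e4.2 := by omega
          have v1 := u1.2 h2.symm
          have v2 := u2.2 h2
          exact Prod.ext (by omega) h2
        have q1 : e1 + (0, -1) ∉ C := by rw [h13]; exact a3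
        have q2 : e2 + (0, -1) ∉ C := by rw [h24]; exact a4
        rw [if_neg q1] at z1
        rw [if_neg q2] at z2
        have := hsum _ (sub1 he1 he2)
        rw [Finset.sum_pair h12] at this
        omega
      · have n24 : e2 ≠ e4 := by
          intro h24
          apply h13
          have u1 := c1 e3 he3
          have u2 := c3 e1 he1
          have w1 := (c2 e1 he1).1
          have w2 := (c4 e3 he3).1
          have w3 := (c2 e3 he3).1
          have w4 := (c4 e1 he1).1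
          rw [← h24] at w2 w4
          have h2 : e1.2 = e3.2 := by omega
          have v1 := u1.2 h2.symm
          have v2 := u2.2 h2
          exact Prod.ext (by omega) h2
        have := hsum _ sub3
        rw [Finset.sum_insert (by simp [h12, h13, n14]), Finset.sum_insert (by simp [n23, n24]),
          Finset.sum_pair h34] at this
        omega

/-- the upper bound -/
theorem upper (Q : Finset (ℤ × ℤ)) (n : ℕ) (hn : 3 ≤ n) (hper : per Q = 4 * n)
    (hmin : ∀ w ∈ Q, dg Q w ≠ 2) : Q.card ≤ (n - 2) ^ 2 + 4 := by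
  set C := Q.filter fun w => 3 ≤ dg Q w with hCdef
  have hC : C ⊆ Q := Finset.filter_subset _ _
  have h3 : ∀ w ∈ C, 3 ≤ dg Q w := fun w hw => (Finset.mem_filter.1 hw).2
  have hL : ∀ w ∈ Q, w ∉ C → dg Q w ≤ 1 := by
    intro w hw hwC
    have h1 := hmin w hw
    have h2 : ¬ 3 ≤ dg Q w := fun h => hwC (Finset.mem_filter.2 ⟨hw, h⟩)
    omega
  have hcard := Finset.card_sdiff_add_card_eq_card hC
  by_cases h4 : 4 ≤ (Q \ C).card
  · obtain ⟨S, hS, hS4⟩ := Finset.exists_subset_card_eq h4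
    have hSQ : S ⊆ Q := hS.trans Finset.sdiff_subset
    have h5 := per_sdiff Q S hSQ (fun w hw => by
      have := Finset.mem_sdiff.1 (hS hw)
      exact hL w this.1 this.2)
    have h6 := iso (Q \ S)
    have h7 := Finset.card_sdiff_add_card_eq_card hSQ
    rw [hS4] at h5 h7
    rw [hper] at h5
    have h8 : per (Q \ S) ≤ 4 * (n - 2) := by omega
    have h9 : per (Q \ S) ^ 2 ≤ (4 * (n - 2)) ^ 2 := Nat.pow_le_pow_left h8 2
    have h10 : (4 * (n - 2)) ^ 2 = 16 * (n - 2) ^ 2 := by ring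
    omega
  · have h5 : C.card ≤ 1 := by
      by_contra hcon
      exact h4 (four_corners Q C hC h3 hL (by omega))
    omega

/-! ### The construction -/

/-- moves for finite subsets of the plane -/
def Mv (Q Q' : Finset (ℤ × ℤ)) : Prop := ∃ v ∈ Q, dg Q v = 2 ∧ Q' = Q.erase v

/-- the square without parts of its four sides -/
noncomputable def G (n a b c e : ℤ) : Finset (ℤ × ℤ) :=
  (Finset.Ico 0 n ×ˢ Finset.Ico 0 n).filter fun w =>
    ¬ (w.2 = 0 ∧ a ≤ w.1) ∧ ¬ (w.1 = n - 1 ∧ b ≤ w.2) ∧ ¬ (w.2 = n - 1 ∧ w.1 < c) ∧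
      ¬ (w.1 = 0 ∧ w.2 < e)

theorem mem_G (n a b c e x y : ℤ) : (x, y) ∈ G n a b c e ↔ ((0 ≤ x ∧ x < n) ∧ 0 ≤ y ∧ y < n) ∧
    ¬ (y = 0 ∧ a ≤ x) ∧ ¬ (x = n - 1 ∧ b ≤ y) ∧ ¬ (y = n - 1 ∧ x < c) ∧ ¬ (x = 0 ∧ y < e) := by
  simp only [G, Finset.mem_filter, Finset.mem_product, Finset.mem_Ico]

theorem step1 (n a a' : ℤ) (hn : 3 ≤ n) (ha : 2 ≤ a) (ha' : a' = a + 1) (han : a' ≤ n) :
    Mv (G n a' n 0 0) (G n a n 0 0) := by
  refine ⟨(a, 0), ?_, ?_, ?_⟩
  · rw [mem_G]; omega
  · rw [dg_eq]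
    simp only [Prod.mk_add_mk, mem_G]
    rw [if_neg (by omega), if_pos (by omega), if_pos (by omega), if_neg (by omega)]
  · ext ⟨x, y⟩
    simp only [mem_G, Finset.mem_erase, ne_eq, Prod.mk.injEq]
    omega

theorem step2 (n b b' : ℤ) (hn : 3 ≤ n) (hb : 2 ≤ b) (hb' : b' = b + 1) (hbn : b' ≤ n) :
    Mv (G n 2 b' 0 0) (G n 2 b 0 0) := by
  refine ⟨(n - 1, b), ?_, ?_, ?_⟩
  · rw [mem_G]; omega
  · rw [dg_eq]
    simp only [Prod.mk_add_mk, mem_G]
    rw [if_neg (by omega), if_pos (by omega), if_neg (by omega), if_pos (by omega)]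
  · ext ⟨x, y⟩
    simp only [mem_G, Finset.mem_erase, ne_eq, Prod.mk.injEq]
    omega

theorem step3 (n c c' : ℤ) (hn : 3 ≤ n) (hc : 0 ≤ c) (hc' : c' = c + 1) (hcn : c' ≤ n - 2) :
    Mv (G n 2 2 c 0) (G n 2 2 c' 0) := by
  refine ⟨(c, n - 1), ?_, ?_, ?_⟩
  · rw [mem_G]; omega
  · rw [dg_eq]
    simp only [Prod.mk_add_mk, mem_G]
    rw [if_pos (by omega), if_neg (by omega), if_neg (by omega), if_pos (by omega)]
  · ext ⟨x, y⟩
    simp only [mem_G, Finset.mem_erase, ne_eq, Prod.mk.injEq]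
    omega

theorem step4 (n e e' : ℤ) (hn : 3 ≤ n) (he : 0 ≤ e) (he' : e' = e + 1) (hen : e' ≤ n - 2) :
    Mv (G n 2 2 (n - 2) e) (G n 2 2 (n - 2) e') := by
  refine ⟨(0, e), ?_, ?_, ?_⟩
  · rw [mem_G]; omega
  · rw [dg_eq]
    simp only [Prod.mk_add_mk, mem_G]
    rw [if_pos (by omega), if_neg (by omega), if_pos (by omega), if_neg (by omega)]
  · ext ⟨x, y⟩
    simp only [mem_G, Finset.mem_erase, ne_eq, Prod.mk.injEq]
    omega

theorem chain (n : ℕ) (hn : 3 ≤ n) :
    Relation.ReflTransGen Mv (G n n n 0 0) (G n 2 2 (n - 2) (n - 2)) := by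
  have hn' : (3 : ℤ) ≤ n := by exact_mod_cast hn
  have h1 : ∀ k : ℕ, (k : ℤ) ≤ n - 2 →
      Relation.ReflTransGen Mv (G n n n 0 0) (G n (n - k) n 0 0) := by
    intro k
    induction k with
    | zero => intro _; simpa using Relation.ReflTransGen.refl
    | succ k ih =>
      intro hk
      push_cast at hk ⊢
      exact (ih (by omega)).tail (step1 n _ _ hn' (by omega) (by ring) (by omega))
  have h2 : ∀ k : ℕ, (k : ℤ) ≤ n - 2 →
      Relation.ReflTransGen Mv (G n 2 n 0 0) (G n 2 (n - k) 0 0) := by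
    intro k
    induction k with
    | zero => intro _; simpa using Relation.ReflTransGen.refl
    | succ k ih =>
      intro hk
      push_cast at hk ⊢
      exact (ih (by omega)).tail (step2 n _ _ hn' (by omega) (by ring) (by omega))
  have h3 : ∀ k : ℕ, (k : ℤ) ≤ n - 2 →
      Relation.ReflTransGen Mv (G n 2 2 0 0) (G n 2 2 k 0) := by
    intro k
    induction k with
    | zero => intro _; simpa using Relation.ReflTransGen.refl
    | succ k ih =>
      intro hk
      push_cast at hk ⊢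
      exact (ih (by omega)).tail (step3 n _ _ hn' (by omega) rfl (by omega))
  have h4 : ∀ k : ℕ, (k : ℤ) ≤ n - 2 →
      Relation.ReflTransGen Mv (G n 2 2 (n - 2) 0) (G n 2 2 (n - 2) k) := by
    intro k
    induction k with
    | zero => intro _; simpa using Relation.ReflTransGen.refl
    | succ k ih =>
      intro hk
      push_cast at hk ⊢
      exact (ih (by omega)).tail (step4 n _ _ hn' (by omega) rfl (by omega))
  have hk : ((n - 2 : ℕ) : ℤ) = n - 2 := by omega
  have g1 := h1 (n - 2) (by omega)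
  have g2 := h2 (n - 2) (by omega)
  have g3 := h3 (n - 2) (by omega)
  have g4 := h4 (n - 2) (by omega)
  rw [hk, sub_sub_cancel] at g1 g2
  rw [hk] at g3 g4
  exact ((g1.trans g2).trans g3).trans g4

theorem final_min (n : ℤ) (hn : 3 ≤ n) : ∀ w ∈ G n 2 2 (n - 2) (n - 2),
    dg (G n 2 2 (n - 2) (n - 2)) w ≠ 2 := by
  rintro ⟨x, y⟩ hw
  rw [mem_G] at hw
  rw [dg_eq]
  simp only [Prod.mk_add_mk, mem_G]
  split_ifs <;> omega

theorem final_card (n : ℕ) (hn : 3 ≤ n) : (G n 2 2 (n - 2) (n - 2)).card = (n - 2) ^ 2 + 4 := by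
  have h : G n 2 2 (n - 2) (n - 2) = insert ((1 : ℤ), (0 : ℤ)) (insert ((n : ℤ) - 1, (1 : ℤ))
      (insert ((n : ℤ) - 2, (n : ℤ) - 1) (insert ((0 : ℤ), (n : ℤ) - 2)
        (Finset.Ico (1 : ℤ) (n - 1) ×ˢ Finset.Ico (1 : ℤ) (n - 1))))) := by
    ext ⟨x, y⟩
    simp only [mem_G, Finset.mem_insert, Finset.mem_product, Finset.mem_Ico, Prod.mk.injEq]
    omega
  rw [h, Finset.card_insert_of_notMem, Finset.card_insert_of_notMem,
    Finset.card_insert_of_notMem, Finset.card_insert_of_notMem, Finset.card_product,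
    Int.card_Ico]
  · have : ((n : ℤ) - 1 - 1).toNat = n - 2 := by omega
    rw [this]
    ring
  all_goals
    simp only [Finset.mem_insert, Finset.mem_product, Finset.mem_Ico, Prod.mk.injEq]
    omega

/-! ### Transfer to positions -/

section transfer

variable {n : ℕ}

/-- the coordinates as integers -/
def io (v : Fin 2 → Fin n) : ℤ × ℤ := (((v 0 : ℕ) : ℤ), ((v 1 : ℕ) : ℤ))

theorem io_inj : Function.Injective (io (n := n)) := by
  intro u v h
  rw [io, io, Prod.mk.injEq] at h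
  funext i
  fin_cases i
  · exact Fin.ext (by simpa using h.1)
  · exact Fin.ext (by simpa using h.2)

theorem adj_iff (v u : Fin 2 → Fin n) : Adj v u ↔ io u - io v ∈ D := by
  simp only [Adj, io, D, Finset.mem_insert, Finset.mem_singleton, Prod.mk_sub_mk, Prod.mk.injEq,
    Fin.exists_fin_two, Fin.forall_fin_two]
  constructor
  · rintro (⟨h, -, h'⟩ | ⟨h, h', -⟩)
    · have := h' (by decide)
      rw [this]
      omega
    · have := h' (by decide)
      rw [this]
      omega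
  · intro h
    have : ((v 1 : ℕ) = u 1 ∧ ((v 0 : ℕ) + 1 = u 0 ∨ (u 0 : ℕ) + 1 = v 0)) ∨
        ((v 0 : ℕ) = u 0 ∧ ((v 1 : ℕ) + 1 = u 1 ∨ (u 1 : ℕ) + 1 = v 1)) := by omega
    rcases this with ⟨h1, h2⟩ | ⟨h1, h2⟩
    · exact Or.inl ⟨h2, fun h3 => absurd rfl h3, fun _ => Fin.ext h1⟩
    · exact Or.inr ⟨h2, fun _ => Fin.ext h1, fun h3 => absurd rfl h3⟩

/-- the position as a finite subset of the plane -/
noncomputable def toQ (P : Set (Fin 2 → Fin n)) : Finset (ℤ × ℤ) := P.toFinite.toFinset.image io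

theorem mem_toQ {P : Set (Fin 2 → Fin n)} {w : ℤ × ℤ} : w ∈ toQ P ↔ ∃ v ∈ P, io v = w := by
  simp [toQ]

theorem io_mem_toQ {P : Set (Fin 2 → Fin n)} {v : Fin 2 → Fin n} : io v ∈ toQ P ↔ v ∈ P := by
  rw [mem_toQ]
  constructor
  · rintro ⟨u, hu, h⟩
    rwa [← io_inj h]
  · intro h
    exact ⟨v, h, rfl⟩

theorem card_toQ (P : Set (Fin 2 → Fin n)) : (toQ P).card = P.ncard := by
  rw [toQ, Finset.card_image_of_injective _ io_inj, Set.ncard_eq_toFinset_card P]

theorem deg_eq (P : Set (Fin 2 → Fin n)) (v : Fin 2 → Fin n) : deg P v = dg (toQ P) (io v) := by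
  have h1 : (fun u => io u - io v) '' {u | u ∈ P ∧ Adj v u} =
      ((D.filter fun δ => io v + δ ∈ toQ P : Finset (ℤ × ℤ)) : Set (ℤ × ℤ)) := by
    ext δ
    simp only [Set.mem_image, Set.mem_ofPred_eq, Finset.coe_filter]
    constructor
    · rintro ⟨u, ⟨hu, ha⟩, rfl⟩
      refine ⟨(adj_iff v u).1 ha, ?_⟩
      rw [add_sub_cancel]
      exact io_mem_toQ.2 hu
    · rintro ⟨hδ, h⟩
      obtain ⟨u, hu, hh⟩ := mem_toQ.1 h
      have e : io u - io v = δ := by rw [hh]; abel
      refine ⟨u, ⟨hu, ?_⟩, e⟩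
      rw [adj_iff, e]
      exact hδ
  have h2 : Function.Injective fun u : Fin 2 → Fin n => io u - io v := by
    intro a b h
    have h' : io a - io v = io b - io v := h
    exact io_inj (sub_left_injective h')
  rw [deg, ← Set.ncard_image_of_injective _ h2, h1, Set.ncard_coe_finset, dg]

theorem toQ_erase (P : Set (Fin 2 → Fin n)) (v : Fin 2 → Fin n) :
    toQ (P \ {v}) = (toQ P).erase (io v) := by
  ext w
  rw [Finset.mem_erase, mem_toQ, mem_toQ]
  constructor
  · rintro ⟨u, ⟨hu, huv⟩, rfl⟩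
    exact ⟨fun h => huv (io_inj h), u, hu, rfl⟩
  · rintro ⟨h, u, hu, rfl⟩
    exact ⟨u, ⟨hu, fun h' => h (by rw [h'])⟩, rfl⟩

theorem toQ_univ : toQ (Set.univ : Set (Fin 2 → Fin n)) =
    Finset.Ico (0 : ℤ) n ×ˢ Finset.Ico (0 : ℤ) n := by
  ext ⟨x, y⟩
  rw [mem_toQ, Finset.mem_product, Finset.mem_Ico, Finset.mem_Ico]
  constructor
  · rintro ⟨v, -, h⟩
    rw [io, Prod.mk.injEq] at h
    have h0 := (v 0).2
    have h1 := (v 1).2
    simp only
    omega
  · rintro ⟨⟨hx, hx'⟩, hy, hy'⟩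
    simp only at hx hx' hy hy'
    refine ⟨![⟨x.toNat, by omega⟩, ⟨y.toNat, by omega⟩], trivial, ?_⟩
    rw [io, Prod.mk.injEq]
    simp only [Matrix.cons_val_zero, Matrix.cons_val_one]
    omega

theorem per_square (hn : 1 ≤ n) :
    per (Finset.Ico (0 : ℤ) n ×ˢ Finset.Ico (0 : ℤ) n) = 4 * n := by
  have hf : ∀ s : ℤ, s = 1 ∨ s = -1 →
      ((Finset.Ico (0 : ℤ) n).filter fun x => x + s ∉ Finset.Ico (0 : ℤ) n).card = 1 := by
    intro s hs
    have : ((Finset.Ico (0 : ℤ) n).filter fun x => x + s ∉ Finset.Ico (0 : ℤ) n) =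
        {if s = 1 then (n : ℤ) - 1 else 0} := by
      ext x
      simp only [Finset.mem_filter, Finset.mem_Ico, Finset.mem_singleton]
      rcases hs with rfl | rfl
      · rw [if_pos rfl]; omega
      · rw [if_neg (by norm_num)]; omega
    rw [this, Finset.card_singleton]
  have hx : ∀ s : ℤ, s = 1 ∨ s = -1 →
      ex (Finset.Ico (0 : ℤ) n ×ˢ Finset.Ico (0 : ℤ) n) (s, 0) = n := by
    intro s hs
    have : ((Finset.Ico (0 : ℤ) n ×ˢ Finset.Ico (0 : ℤ) n).filter fun w =>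
        w + (s, 0) ∉ Finset.Ico (0 : ℤ) n ×ˢ Finset.Ico (0 : ℤ) n) =
        ((Finset.Ico (0 : ℤ) n).filter fun x => x + s ∉ Finset.Ico (0 : ℤ) n) ×ˢ
          Finset.Ico (0 : ℤ) n := by
      ext ⟨x, y⟩
      simp only [Finset.mem_filter, Finset.mem_product, Finset.mem_Ico, Prod.mk_add_mk, add_zero]
      omega
    rw [ex, this, Finset.card_product, hf s hs, Int.card_Ico]
    omega
  have hy : ∀ s : ℤ, s = 1 ∨ s = -1 →
      ex (Finset.Ico (0 : ℤ) n ×ˢ Finset.Ico (0 : ℤ) n) (0, s) = n := by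
    intro s hs
    have : ((Finset.Ico (0 : ℤ) n ×ˢ Finset.Ico (0 : ℤ) n).filter fun w =>
        w + (0, s) ∉ Finset.Ico (0 : ℤ) n ×ˢ Finset.Ico (0 : ℤ) n) =
        Finset.Ico (0 : ℤ) n ×ˢ
          ((Finset.Ico (0 : ℤ) n).filter fun x => x + s ∉ Finset.Ico (0 : ℤ) n) := by
      ext ⟨x, y⟩
      simp only [Finset.mem_filter, Finset.mem_product, Finset.mem_Ico, Prod.mk_add_mk, add_zero]
      omega
    rw [ex, this, Finset.card_product, hf s hs, Int.card_Ico]
    omega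
  rw [per, D, Finset.sum_insert (by decide), Finset.sum_insert (by decide),
    Finset.sum_insert (by decide), Finset.sum_singleton, hx 1 (Or.inl rfl), hx (-1) (Or.inr rfl),
    hy 1 (Or.inl rfl), hy (-1) (Or.inr rfl)]
  ring

theorem per_reach (hn : 1 ≤ n) {P : Set (Fin 2 → Fin n)} (hP : Reachable P) :
    per (toQ P) = 4 * n := by
  induction hP with
  | refl => rw [toQ_univ, per_square hn]
  | tail _ h ih =>
    obtain ⟨v, hv, hd, rfl⟩ := h
    rw [deg_eq] at hd
    have := per_erase _ (io v) (io_mem_toQ.2 hv)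
    rw [hd, ih] at this
    rw [toQ_erase]
    omega

theorem lift {F : Finset (ℤ × ℤ)}
    (h : Relation.ReflTransGen Mv (Finset.Ico (0 : ℤ) n ×ˢ Finset.Ico (0 : ℤ) n) F) :
    ∃ P : Set (Fin 2 → Fin n), Reachable P ∧ toQ P = F := by
  induction h with
  | refl => exact ⟨Set.univ, Relation.ReflTransGen.refl, toQ_univ⟩
  | tail _ h ih =>
    obtain ⟨P, hP, rfl⟩ := ih
    obtain ⟨w, hw, hd, rfl⟩ := h
    obtain ⟨v, hv, rfl⟩ := mem_toQ.1 hw
    refine ⟨P \ {v}, hP.tail ⟨v, hv, ?_, rfl⟩, toQ_erase P v⟩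
    rw [deg_eq]
    exact hd

end transfer

theorem value_ge_three (n : ℕ) (hn : 3 ≤ n) : IsGreatest (Sizes n 2) ((n - 2) ^ 2 + 4) := by
  constructor
  · have hG : G n n n 0 0 = Finset.Ico (0 : ℤ) n ×ˢ Finset.Ico (0 : ℤ) n := by
      ext ⟨x, y⟩
      simp only [mem_G, Finset.mem_product, Finset.mem_Ico]
      omega
    have hc := chain n hn
    rw [hG] at hc
    obtain ⟨P, hP, hPF⟩ := lift hc
    refine ⟨P, hP, ?_, ?_⟩
    · intro v hv
      rw [deg_eq, hPF]
      refine final_min n (by exact_mod_cast hn) _ ?_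
      rw [← hPF]
      exact io_mem_toQ.2 hv
    · rw [← card_toQ, hPF, final_card n hn]
  · rintro m ⟨P, hP, hmin, rfl⟩
    rw [← card_toQ]
    refine upper (toQ P) n hn (per_reach (by omega) hP) ?_
    intro w hw
    obtain ⟨v, hv, rfl⟩ := mem_toQ.1 hw
    rw [← deg_eq]
    exact hmin v hv

theorem square_one : Finset.Ico (0 : ℤ) (1 : ℕ) ×ˢ Finset.Ico (0 : ℤ) (1 : ℕ) = {(0, 0)} := by
  ext ⟨x, y⟩
  simp only [Finset.mem_product, Finset.mem_Ico, Finset.mem_singleton, Prod.mk.injEq]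
  omega

theorem square_two : Finset.Ico (0 : ℤ) (2 : ℕ) ×ˢ Finset.Ico (0 : ℤ) (2 : ℕ) =
    {(0, 0), (0, 1), (1, 0), (1, 1)} := by
  ext ⟨x, y⟩
  simp only [Finset.mem_product, Finset.mem_Ico, Finset.mem_insert, Finset.mem_singleton,
    Prod.mk.injEq]
  omega

theorem value_one : IsGreatest (Sizes 1 2) 1 := by
  constructor
  · refine ⟨Set.univ, Relation.ReflTransGen.refl, ?_, ?_⟩
    · intro v hv
      have hw := io_mem_toQ.2 hv
      rw [deg_eq]
      rw [toQ_univ, square_one] at hw ⊢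
      rw [Finset.mem_singleton] at hw
      rw [hw]
      decide
    · rw [← card_toQ, toQ_univ, square_one]
      rfl
  · rintro m ⟨P, hP, -, rfl⟩
    rw [← card_toQ]
    have h1 := iso (toQ P)
    rw [per_reach (by omega) hP] at h1
    omega

theorem small_two : ∀ Q ∈ ({(0, 0), (0, 1), (1, 0), (1, 1)} : Finset (ℤ × ℤ)).powerset,
    per Q = 4 * 2 → (∀ w ∈ Q, dg Q w ≠ 2) → Q.card ≤ 2 := by
  decide

theorem value_two : IsGreatest (Sizes 2 2) 2 := by
  constructor
  · have hc : Relation.ReflTransGen Mv (Finset.Ico (0 : ℤ) (2 : ℕ) ×ˢ Finset.Ico (0 : ℤ) (2 : ℕ))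
        {(0, 1), (1, 0)} := by
      rw [square_two]
      have h1 : Mv {(0, 0), (0, 1), (1, 0), (1, 1)} {(0, 1), (1, 0), (1, 1)} :=
        ⟨(0, 0), by decide, by decide, by decide⟩
      have h2 : Mv {(0, 1), (1, 0), (1, 1)} {(0, 1), (1, 0)} :=
        ⟨(1, 1), by decide, by decide, by decide⟩
      exact (Relation.ReflTransGen.single h1).tail h2
    obtain ⟨P, hP, hPF⟩ := lift hc
    refine ⟨P, hP, ?_, ?_⟩
    · intro v hv
      have hw := io_mem_toQ.2 hv
      rw [deg_eq]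
      rw [hPF] at hw ⊢
      revert hw
      generalize io v = w
      intro hw
      rw [Finset.mem_insert, Finset.mem_singleton] at hw
      rcases hw with rfl | rfl <;> decide
    · rw [← card_toQ, hPF]
      rfl
  · rintro m ⟨P, hP, hmin, rfl⟩
    rw [← card_toQ]
    refine small_two (toQ P) ?_ (per_reach (by omega) hP) ?_
    · rw [Finset.mem_powerset, ← square_two, ← toQ_univ]
      intro w hw
      obtain ⟨v, -, rfl⟩ := mem_toQ.1 hw
      exact mem_toQ.2 ⟨v, trivial, rfl⟩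
    · intro w hw
      obtain ⟨v, hv, rfl⟩ := mem_toQ.1 hw
      rw [← deg_eq]
      exact hmin v hv

/-- **The largest minimal percolating sets of the square grid.** `M(n, 2) = (n - 2) ^ 2 + 4` for
all `n ≥ 3`, `M(1, 2) = 1` and `M(2, 2) = 2`. -/
theorem result : (∀ n : ℕ, 3 ≤ n → IsGreatest (Sizes n 2) ((n - 2) ^ 2 + 4)) ∧
    IsGreatest (Sizes 1 2) 1 ∧ IsGreatest (Sizes 2 2) 2 :=
  ⟨value_ge_three, value_one, value_two⟩

end Pool.Agent.Results.MP_58c4c2_co.SquareValue
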